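import Pool.Agent.Lib.MP_0f9109_lc.Defs

/-!
General facts on mechanisms: expectation, transport along equivalences, monotonicity,
equal-revenue columns, posted prices.
-/

namespace Pool.Agent.Lib.MP_0f9109_lc

open Finset

/-- expectation as a linear map in the weights -/
noncomputable def Ex {α : Type} (f : α → ℝ) : (α →₀ ℝ) →ₗ[ℝ] ℝ := Finsupp.linearCombination ℝ f

theorem Ex_apply {α : Type} (f : α → ℝ) (D : α →₀ ℝ) : Ex f D = D.sum fun v m => m * f v := by
  simp [Ex, Finsupp.linearCombination_apply]

theorem Ex_single {α : Type} (f : α → ℝ) (a : α) (m : ℝ) : Ex f (Finsupp.single a m) = m * f a := by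
  simp [Ex]

theorem Ex_mapDomain {α β : Type} (f : β → ℝ) (g : α → β) (D : α →₀ ℝ) :
    Ex f (Finsupp.mapDomain g D) = Ex (f ∘ g) D := by
  simp [Ex, Finsupp.linearCombination_mapDomain]

theorem Ex_congr {α : Type} {f g : α → ℝ} (D : α →₀ ℝ) (h : ∀ v ∈ D.support, f v = g v) :
    Ex f D = Ex g D := by
  rw [Ex_apply, Ex_apply]
  exact Finsupp.sum_congr fun v hv => by rw [h v hv]

theorem Ex_mono {α : Type} {f g : α → ℝ} (D : α →₀ ℝ) (hD : ∀ v, 0 ≤ D v)
    (h : ∀ v ∈ D.support, f v ≤ g v) : Ex f D ≤ Ex g D := by
  rw [Ex_apply, Ex_apply]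
  exact Finset.sum_le_sum fun v hv => mul_le_mul_of_nonneg_left (h v hv) (hD v)

theorem mass_eq_Ex {α : Type} (D : α →₀ ℝ) : (D.sum fun _ m => m) = Ex (fun _ => 1) D := by
  rw [Ex_apply]; simp

theorem rev_eq_Ex {ι : Type} [Fintype ι] [DecidableEq ι] (D : (ι → ℝ) →₀ ℝ) (M : Mechanism ι) :
    rev D M = Ex (fun v => ∑ i, M.p v i) D := by
  rw [Ex_apply]; rfl

section
variable {ι : Type} [Fintype ι] [DecidableEq ι]

theorem Mechanism.p_le (M : Mechanism ι) {v : ι → ℝ} (hv : ∀ j, 0 < v j) (i : ι) :
    M.p v i ≤ M.x v i * v i := by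
  have := M.ir v hv i; linarith

theorem Mechanism.x_le_one (M : Mechanism ι) {v : ι → ℝ} (hv : ∀ j, 0 < v j) (i : ι) :
    M.x v i ≤ 1 :=
  (Finset.single_le_sum (fun j _ => M.x_nonneg v hv j) (Finset.mem_univ i)).trans (M.x_sum v hv)

theorem update_pos {v : ι → ℝ} (hv : ∀ j, 0 < v j) (i : ι) {b : ℝ} (hb : 0 < b) :
    ∀ j, 0 < Function.update v i b j := by
  intro j
  rcases eq_or_ne j i with rfl | h
  · simpa using hb
  · simpa [Function.update_of_ne h] using hv j

/-- allocation is monotone in the own bid -/
theorem Mechanism.x_mono (M : Mechanism ι) {v : ι → ℝ} (hv : ∀ j, 0 < v j) (i : ι) {b : ℝ}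
    (hb : v i < b) : M.x v i ≤ M.x (Function.update v i b) i := by
  have hb0 : 0 < b := (hv i).trans hb
  have h1 := M.truthful v hv i b hb0
  have h2 := M.truthful (Function.update v i b) (update_pos hv i hb0) i (v i) (hv i)
  simp only [Function.update_idem, Function.update_eq_self, Function.update_self] at h2
  by_contra hlt
  push Not at hlt
  nlinarith

theorem rev_bddAbove (D : (ι → ℝ) →₀ ℝ) (hD : IsDist D) : BddAbove (Set.range (rev D)) := by
  refine ⟨Ex (fun v => ∑ i, v i) D, ?_⟩
  rintro _ ⟨M, rfl⟩
  rw [rev_eq_Ex]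
  refine Ex_mono D hD.1 fun v hv => Finset.sum_le_sum fun i _ => ?_
  have hp := hD.2.2 v hv
  have h1 := M.p_le hp i
  have h2 := M.x_le_one hp i
  have h3 := hp i
  nlinarith

theorem rev_le_OPT (D : (ι → ℝ) →₀ ℝ) (hD : IsDist D) (M : Mechanism ι) : rev D M ≤ OPT D :=
  le_csSup (rev_bddAbove D hD) ⟨M, rfl⟩

/-- transport of a mechanism along an equivalence of bidder sets -/
noncomputable def Mechanism.comap {κ : Type} [Fintype κ] [DecidableEq κ] (e : ι ≃ κ)
    (M : Mechanism κ) : Mechanism ι where
  x v i := M.x (v ∘ e.symm) (e i)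
  p v i := M.p (v ∘ e.symm) (e i)
  x_nonneg v hv i := M.x_nonneg _ (fun j => hv _) _
  x_sum v hv := by
    rw [Equiv.sum_comp e (fun j => M.x (v ∘ e.symm) j)]
    exact M.x_sum _ (fun j => hv _)
  truthful v hv i b hb := by
    have h := M.truthful (v ∘ e.symm) (fun j => hv _) (e i) b hb
    have he : Function.update v i b ∘ e.symm = Function.update (v ∘ e.symm) (e i) b := by
      funext j
      rcases eq_or_ne j (e i) with rfl | hj
      · simp
      · have : e.symm j ≠ i := fun h => hj (by rw [← h]; simp)
        simp [Function.update_of_ne hj, Function.update_of_ne this]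
    simpa [he] using h
  ir v hv i := by
    simpa using M.ir (v ∘ e.symm) (fun j => hv _) (e i)

theorem Mechanism.comap_sum_p {κ : Type} [Fintype κ] [DecidableEq κ] (e : ι ≃ κ)
    (M : Mechanism κ) (v : ι → ℝ) :
    ∑ i, (M.comap e).p v i = ∑ j, M.p (v ∘ e.symm) j :=
  Equiv.sum_comp e (fun j => M.p (v ∘ e.symm) j)

/-- Equal-revenue column: the payments collected below the `a`-th point are at most the tail mass
times the utility at the `a`-th point. -/
theorem column_bound (M : Mechanism ι) (v : ι → ℝ) (hv : ∀ j, 0 < v j) (h : ι) (u : ℕ → ℝ)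
    (j : ℕ) (hu1 : ∀ a ≤ j, u a < 1) (a : ℕ) (ha : a ≤ j) :
    ∑ b ∈ range a, (u (b + 1) - u b) * M.p (Function.update v h (1 - u b)⁻¹) h ≤
      (1 - u a) * (M.x (Function.update v h (1 - u a)⁻¹) h * (1 - u a)⁻¹ -
        M.p (Function.update v h (1 - u a)⁻¹) h) := by
  have hpos : ∀ a ≤ j, 0 < (1 - u a)⁻¹ := fun a ha => inv_pos.2 (by linarith [hu1 a ha])
  induction a with
  | zero =>
    have := M.ir _ (update_pos hv h (hpos 0 ha)) h
    simp only [Function.update_self] at this
    simp only [range_zero, sum_empty]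
    exact mul_nonneg (by linarith [hu1 0 ha]) this
  | succ a ih =>
    have ha' : a ≤ j := by omega
    rw [sum_range_succ]
    have ih := ih ha'
    have ht := M.truthful _ (update_pos hv h (hpos (a + 1) ha)) h _ (hpos a ha')
    simp only [Function.update_idem, Function.update_self] at ht
    set X := M.x (Function.update v h (1 - u a)⁻¹) h
    set P := M.p (Function.update v h (1 - u a)⁻¹) h
    set U' := M.x (Function.update v h (1 - u (a + 1))⁻¹) h * (1 - u (a + 1))⁻¹ -
        M.p (Function.update v h (1 - u (a + 1))⁻¹) h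
    have h1 : 0 < 1 - u a := by linarith [hu1 a ha']
    have h2 : 0 < 1 - u (a + 1) := by linarith [hu1 (a + 1) ha]
    have e1 : (1 - u a) * (X * (1 - u a)⁻¹ - P) = X - (1 - u a) * P := by field_simp
    have e2 : (1 - u (a + 1)) * (X * (1 - u (a + 1))⁻¹ - P) = X - (1 - u (a + 1)) * P := by
      field_simp
    have := mul_le_mul_of_nonneg_left ht h2.le
    nlinarith

open Classical in
/-- Posted prices: bidder `h` is offered the price `π v` (independent of her own bid and of the bid
of `z`); if she declines and `c` holds, bidder `z` is offered the price `θ`. -/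
noncomputable def posted (h z : ι) (hz : h ≠ z) (π : (ι → ℝ) → ℝ)
    (hπ : ∀ v b, π (Function.update v h b) = π v) (hπ' : ∀ v b, π (Function.update v z b) = π v)
    (θ : ℝ) : Mechanism ι where
  x v i := if i = h then (if π v ≤ v h then 1 else 0)
    else if i = z then (if v h < π v ∧ θ ≤ v z then 1 else 0) else 0
  p v i := if i = h then (if π v ≤ v h then π v else 0)
    else if i = z then (if v h < π v ∧ θ ≤ v z then θ else 0) else 0
  x_nonneg v _ i := by split_ifs <;> norm_num
  x_sum v _ := by
    rw [Finset.sum_eq_add_of_mem h z (mem_univ _) (mem_univ _) hz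
      (fun c _ hc => by simp [hc.1, hc.2])]
    simp only [if_true, hz.symm, if_false]
    split_ifs with h1 h2 <;> first | (exfalso; linarith [h2.1]) | norm_num
  truthful v _ i b _ := by
    by_cases hi : i = h
    · subst hi
      simp only [if_true, hπ, Function.update_self]
      split_ifs <;> linarith
    · by_cases hi' : i = z
      · subst hi'
        simp only [hi, if_false, if_true, hπ', Function.update_self, Function.update_of_ne hz]
        split_ifs with h1 h2 h2
        · linarith
        · have : ¬ θ ≤ v i := fun h3 => h2 ⟨h1.1, h3⟩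
          linarith
        · linarith [h2.2]
        · linarith
      · simp [hi, hi']
  ir v _ i := by
    by_cases hi : i = h
    · subst hi
      simp only [if_true]
      split_ifs <;> linarith
    · by_cases hi' : i = z
      · subst hi'
        simp only [hi, if_false, if_true]
        split_ifs with h1
        · linarith [h1.2]
        · linarith
      · simp [hi, hi']

open Classical in
theorem posted_sum_p (h z : ι) (hz : h ≠ z) (π : (ι → ℝ) → ℝ)
    (hπ : ∀ v b, π (Function.update v h b) = π v) (hπ' : ∀ v b, π (Function.update v z b) = π v)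
    (θ : ℝ) (v : ι → ℝ) :
    ∑ i, (posted h z hz π hπ hπ' θ).p v i =
      (if π v ≤ v h then π v else 0) + (if v h < π v ∧ θ ≤ v z then θ else 0) := by
  rw [Finset.sum_eq_add_of_mem h z (mem_univ _) (mem_univ _) hz
      (fun c _ hc => by simp [posted, hc.1, hc.2])]
  simp [posted, hz.symm]

open Classical in
/-- A posted price for a single bidder. -/
noncomputable def posted1 (h : ι) (π : (ι → ℝ) → ℝ)
    (hπ : ∀ v b, π (Function.update v h b) = π v) : Mechanism ι where
  x v i := if i = h then (if π v ≤ v h then 1 else 0) else 0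
  p v i := if i = h then (if π v ≤ v h then π v else 0) else 0
  x_nonneg v _ i := by split_ifs <;> norm_num
  x_sum v _ := by
    simp only [sum_ite_eq', mem_univ, if_true]
    split_ifs <;> norm_num
  truthful v _ i b _ := by
    by_cases hi : i = h
    · subst hi
      simp only [if_true, hπ, Function.update_self]
      split_ifs <;> linarith
    · simp [hi]
  ir v _ i := by
    by_cases hi : i = h
    · subst hi
      simp only [if_true]
      split_ifs <;> linarith
    · simp [hi]

open Classical in
theorem posted1_sum_p (h : ι) (π : (ι → ℝ) → ℝ)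
    (hπ : ∀ v b, π (Function.update v h b) = π v) (v : ι → ℝ) :
    ∑ i, (posted1 h π hπ).p v i = if π v ≤ v h then π v else 0 := by
  simp [posted1]

end

end Pool.Agent.Lib.MP_0f9109_lc
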