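import Mathlib

/-!
Definitions for the k-lookahead auction (problem MP_0f9109_lc), following the problem file.
-/

namespace Pool.Agent.Lib.MP_0f9109_lc

/-- A single-item mechanism for the bidder set `ι`: allocation probabilities `x` and expected
payments `p` on all bid vectors with positive coordinates, feasible, truthful in expectation
and individually rational. -/
structure Mechanism (ι : Type) [Fintype ι] [DecidableEq ι] where
  x : (ι → ℝ) → ι → ℝ
  p : (ι → ℝ) → ι → ℝ
  x_nonneg : ∀ v : ι → ℝ, (∀ j, 0 < v j) → ∀ i, 0 ≤ x v i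
  x_sum : ∀ v : ι → ℝ, (∀ j, 0 < v j) → ∑ i, x v i ≤ 1
  truthful : ∀ v : ι → ℝ, (∀ j, 0 < v j) → ∀ (i : ι) (b : ℝ), 0 < b →
    x (Function.update v i b) i * v i - p (Function.update v i b) i ≤ x v i * v i - p v i
  ir : ∀ v : ι → ℝ, (∀ j, 0 < v j) → ∀ i, 0 ≤ x v i * v i - p v i

/-- `D` is a finitely supported probability distribution on valuation vectors with positive
coordinates. -/
def IsDist {ι : Type} (D : (ι → ℝ) →₀ ℝ) : Prop :=
  (∀ v, 0 ≤ D v) ∧ (D.sum fun _ m => m) = 1 ∧ ∀ v ∈ D.support, ∀ i, 0 < v i

/-- Expected revenue of the mechanism `M` under `D`. -/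
noncomputable def rev {ι : Type} [Fintype ι] [DecidableEq ι] (D : (ι → ℝ) →₀ ℝ)
    (M : Mechanism ι) : ℝ :=
  D.sum fun v m => m * ∑ i, M.p v i

/-- The optimal expected revenue under `D`. -/
noncomputable def OPT {ι : Type} [Fintype ι] [DecidableEq ι] (D : (ι → ℝ) →₀ ℝ) : ℝ :=
  sSup (Set.range (rev D))

open Classical in
/-- The set of the `k` highest bidders, ties broken by index: bidder `i` is in it when fewer than
`k` bidders beat her (higher value, or equal value and smaller index). -/
noncomputable def topK {n : ℕ} (k : ℕ) (v : Fin n → ℝ) : Finset (Fin n) :=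
  Finset.univ.filter fun i =>
    (Finset.univ.filter fun j => v i < v j ∨ (v j = v i ∧ j < i)).card < k

open Classical in
/-- The part of `D` on the event: the values outside `K` are those of `v`, and every value in `K`
is at least the maximum of the values of `v` outside `K`. -/
noncomputable def onEvent {n : ℕ} (D : (Fin n → ℝ) →₀ ℝ) (K : Finset (Fin n)) (v : Fin n → ℝ) :
    (Fin n → ℝ) →₀ ℝ :=
  D.filter fun w => (∀ j, j ∉ K → w j = v j) ∧ ∀ i ∈ K, ∀ j, j ∉ K → v j ≤ w i

/-- The conditional distribution `D_K` of the values in `K` given that event. -/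
noncomputable def condDist {n : ℕ} (D : (Fin n → ℝ) →₀ ℝ) (K : Finset (Fin n))
    (v : Fin n → ℝ) : ({i // i ∈ K} → ℝ) →₀ ℝ :=
  ((onEvent D K v).sum fun _ m => m)⁻¹ •
    Finsupp.mapDomain (fun (w : Fin n → ℝ) (i : {i // i ∈ K}) => w i.1) (onEvent D K v)

/-- `r` is the expected revenue under `D` of a `k`-lookahead mechanism: for each set `K` and each
vector of values outside `K` a mechanism `M K _` for the bidders in `K` is chosen, which is revenue
maximizing for `D_K` at every point of the support of `D`; at `v` the bidders in `K = topK k v` are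
served by it and the others pay nothing. -/
def IsLookaheadRev {n : ℕ} (k : ℕ) (D : (Fin n → ℝ) →₀ ℝ) (r : ℝ) : Prop :=
  ∃ M : (K : Finset (Fin n)) → ({j // j ∉ K} → ℝ) → Mechanism {i // i ∈ K},
    (∀ v ∈ D.support, ∀ M' : Mechanism {i // i ∈ topK k v},
      rev (condDist D (topK k v) v) M' ≤
        rev (condDist D (topK k v) v) (M (topK k v) fun j => v j.1)) ∧
    r = D.sum fun v m =>
      m * ∑ i : {i // i ∈ topK k v}, (M (topK k v) fun j => v j.1).p (fun l => v l.1) i

end Pool.Agent.Lib.MP_0f9109_lc
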