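import Pool.Agent.Lib.MP_0f9109_lc.Basic

/-!
The hard instance: one high bidder with equal-revenue columns, `m + 1` bidders with values just
below `1` arranged in layers, and one reserve bidder with constant value `θ`.
-/

namespace Pool.Agent.Lib.MP_0f9109_lc

open Finset

noncomputable def uu (T a : ℕ) : ℝ := Real.exp (((a : ℝ) - T) / T)
noncomputable def ww (T a : ℕ) : ℝ := if a < T then Real.exp (((T : ℝ) - a) / T) else 0
noncomputable def rr (T j : ℕ) : ℝ := ww T j - ww T (j + 1)
noncomputable def gam (T j : ℕ) : ℝ := rr T j * (1 - uu T j)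
noncomputable def bet (T a j : ℕ) : ℝ := rr T j * (uu T (a + 1) - uu T a)

theorem uu_pos (T a : ℕ) : 0 < uu T a := Real.exp_pos _

theorem uu_lt_one {T a : ℕ} (h : a < T) : uu T a < 1 := by
  have hT : (0 : ℝ) < T := by exact_mod_cast (by omega : 0 < T)
  have : (a : ℝ) < T := by exact_mod_cast h
  exact Real.exp_lt_one_iff.2 (div_neg_of_neg_of_pos (by linarith) hT)

theorem uu_lt {T a b : ℕ} (hT : 0 < T) (h : a < b) : uu T a < uu T b := by
  have hT : (0 : ℝ) < T := by exact_mod_cast hT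
  have : (a : ℝ) < b := by exact_mod_cast h
  exact Real.exp_lt_exp.2 (div_lt_div_of_pos_right (by linarith) hT)

theorem ww_mul_uu {T a : ℕ} (h : a < T) : ww T a * uu T a = 1 := by
  simp only [ww, uu, h, if_true, ← Real.exp_add]
  rw [← add_div]; simp

theorem ww_nonneg (T a : ℕ) : 0 ≤ ww T a := by
  unfold ww; split_ifs
  · exact (Real.exp_pos _).le
  · exact le_rfl

theorem ww_mul_uu_le (T a : ℕ) : ww T a * uu T a ≤ 1 := by
  by_cases h : a < T
  · exact (ww_mul_uu h).le
  · simp [ww, h]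

theorem rr_nonneg (T j : ℕ) : 0 ≤ rr T j := by
  unfold rr
  by_cases h : j + 1 < T
  · have hT : (0 : ℝ) < T := by exact_mod_cast (by omega : 0 < T)
    have h' : j < T := by omega
    simp only [ww, h, h', if_true, sub_nonneg]
    refine Real.exp_le_exp.2 (div_le_div_of_nonneg_right ?_ hT.le)
    push_cast; linarith
  · have := ww_nonneg T j
    simp [ww, h] at this ⊢
    exact this

theorem gam_nonneg {T j : ℕ} (h : j < T) : 0 ≤ gam T j :=
  mul_nonneg (rr_nonneg T j) (by linarith [uu_lt_one h])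

theorem bet_nonneg {T : ℕ} (hT : 0 < T) (a j : ℕ) : 0 ≤ bet T a j :=
  mul_nonneg (rr_nonneg T j) (by linarith [uu_lt hT (Nat.lt_succ_self a)])

theorem sum_rr {T a : ℕ} (h : a ≤ T) : ∑ j ∈ Ico a T, rr T j = ww T a := by
  have := Finset.sum_Ico_sub (fun j => - ww T j) h
  simp only [rr]
  have h2 : ww T T = 0 := by simp [ww]
  rw [h2] at this
  rw [show ww T a = -0 - -ww T a by ring, ← this]
  exact Finset.sum_congr rfl fun j _ => by ring

theorem row_bound {T a : ℕ} (h : a < T) :
    gam T a + ∑ j ∈ Ico (a + 1) T, bet T a j ≤ rr T a := by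
  simp only [bet, ← Finset.sum_mul, sum_rr (show a + 1 ≤ T from h), gam]
  have h1 := ww_mul_uu h
  have h2 := ww_mul_uu_le T (a + 1)
  simp only [rr]
  nlinarith

theorem sum_swap_tri (T : ℕ) (f : ℕ → ℕ → ℝ) :
    ∑ j ∈ range T, ∑ a ∈ range j, f a j = ∑ a ∈ range T, ∑ j ∈ Ico (a + 1) T, f a j := by
  refine Finset.sum_comm' ?_
  intro j a
  simp only [mem_range, mem_Ico]
  omega

theorem sum_bet {T : ℕ} (hT : 0 < T) :
    ∑ j ∈ range T, ∑ a ∈ range j, bet T a j = ((T : ℝ) - 1) * (1 - Real.exp (-1 / T)) := by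
  rw [sum_swap_tri]
  obtain ⟨n, rfl⟩ : ∃ n, T = n + 1 := ⟨T - 1, by omega⟩
  rw [sum_range_succ]
  simp only [Ico_self, sum_empty, add_zero]
  rw [Finset.sum_congr rfl (g := fun _ => 1 - Real.exp (-1 / ((n + 1 : ℕ) : ℝ)))]
  · simp only [sum_const, card_range, nsmul_eq_mul]; push_cast; ring
  · intro a ha
    have ha : a + 1 < n + 1 := by simpa using ha
    simp only [bet, ← Finset.sum_mul, sum_rr ha.le]
    rw [mul_sub, ww_mul_uu ha]
    congr 1
    simp only [ww, uu, ha, if_true, ← Real.exp_add]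
    congr 1
    push_cast
    ring

/-- profiles of layer `j` whose free coordinates are below `B` -/
def prof (m S j B : ℕ) : Finset (Fin (m + 1) → ℕ) :=
  (Nat.antidiagonalTuple (m + 1) (S - j)).filter fun l => ∀ i : Fin m, l i.succ < B

theorem mem_prof {m S j B : ℕ} {l : Fin (m + 1) → ℕ} :
    l ∈ prof m S j B ↔ ∑ i, l i = S - j ∧ ∀ i : Fin m, l i.succ < B := by
  simp [prof, Nat.mem_antidiagonalTuple]

theorem prof_mono {m S j B B' : ℕ} (h : B ≤ B') : prof m S j B ⊆ prof m S j B' := by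
  intro l hl
  rw [mem_prof] at hl ⊢
  exact ⟨hl.1, fun i => (hl.2 i).trans_le h⟩

theorem card_prof_le (m S j B : ℕ) : (prof m S j B).card ≤ B ^ m := by
  have : (Fintype.piFinset fun _ : Fin m => range B).card = B ^ m := by simp
  rw [← this]
  refine Finset.card_le_card_of_injOn (fun l => Fin.tail l) ?_ ?_
  · intro l hl
    have hl := mem_prof.1 hl
    rw [mem_coe, Fintype.mem_piFinset]
    exact fun i => mem_range.2 (hl.2 i)
  · intro l hl l' hl' h
    have hl := (mem_prof.1 hl).1
    have hl' := (mem_prof.1 hl').1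
    rw [Fin.sum_univ_succ] at hl hl'
    have h' : ∀ i : Fin m, l i.succ = l' i.succ := fun i => congrFun h i
    have hs : ∑ i : Fin m, l i.succ = ∑ i : Fin m, l' i.succ := sum_congr rfl fun i _ => h' i
    funext i
    refine Fin.cases ?_ h' i
    omega

theorem le_card_prof (m S j B : ℕ) (h : m * B + j ≤ S) : B ^ m ≤ (prof m S j B).card := by
  have : (Fintype.piFinset fun _ : Fin m => range B).card = B ^ m := by simp
  rw [← this]
  refine Finset.card_le_card_of_injOn
    (fun t => (Fin.cons (S - j - ∑ i, t i) t : Fin (m + 1) → ℕ)) ?_ ?_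
  · intro t ht
    have ht : ∀ i, t i < B := by simpa using ht
    have hs : ∑ i, t i ≤ m * B := by
      calc ∑ i, t i ≤ ∑ _i : Fin m, B := sum_le_sum fun i _ => (ht i).le
        _ = m * B := by simp
    rw [mem_coe, mem_prof]
    refine ⟨?_, fun i => by simpa using ht i⟩
    rw [Fin.sum_univ_succ]
    simp only [Fin.cons_zero, Fin.cons_succ]
    omega
  · intro t _ t' _ h
    funext i
    simpa using congrFun h i.succ

theorem shift_mem {m S j a L T : ℕ} (hj : j < T) (hS : T ≤ S) (ha : a < j)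
    {l : Fin (m + 1) → ℕ} (hl : l ∈ prof m S j L) (i : Fin (m + 1)) :
    Function.update l i (l i + (j - a)) ∈ prof m S a (L + T) := by
  rw [mem_prof] at hl ⊢
  constructor
  · rw [Finset.sum_update_of_mem (mem_univ i)]
    have := hl.1
    rw [← Finset.add_sum_erase _ _ (mem_univ i)] at this
    rw [Finset.sdiff_singleton_eq_erase]
    omega
  · intro i'
    have := hl.2 i'
    rcases eq_or_ne i'.succ i with rfl | h
    · simp only [Function.update_self]; omega
    · rw [Function.update_of_ne h]; omega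

noncomputable def lowval (θ : ℝ) (S c : ℕ) : ℝ := θ + (1 - θ) / (S + 1) * (c + 1)

theorem lowval_gt {θ : ℝ} (h1 : θ < 1) (S c : ℕ) : θ < lowval θ S c := by
  unfold lowval
  have : 0 < (1 - θ) / (S + 1) * (c + 1) := by
    have : 0 < 1 - θ := by linarith
    positivity
  linarith

theorem lowval_le {θ : ℝ} (h1 : θ < 1) {S c : ℕ} (h : c ≤ S) : lowval θ S c ≤ 1 := by
  unfold lowval
  have hc : (c : ℝ) + 1 ≤ S + 1 := by exact_mod_cast Nat.succ_le_succ h
  have h0 : 0 < 1 - θ := by linarith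
  have : (1 - θ) / (S + 1) * (c + 1) ≤ (1 - θ) / (S + 1) * (S + 1) :=
    mul_le_mul_of_nonneg_left hc (by positivity)
  rw [div_mul_cancel₀ _ (by positivity)] at this
  linarith

theorem lowval_lt {θ : ℝ} (h1 : θ < 1) (S : ℕ) {c c' : ℕ} (h : c < c') :
    lowval θ S c < lowval θ S c' := by
  unfold lowval
  have hc : (c : ℝ) + 1 < c' + 1 := by exact_mod_cast Nat.succ_lt_succ h
  have h0 : 0 < 1 - θ := by linarith
  have := mul_lt_mul_of_pos_left hc (show 0 < (1 - θ) / (S + 1) by positivity)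
  linarith

/-- values of the `m + 2` top bidders -/
noncomputable def qq {m : ℕ} (θ : ℝ) (S T a : ℕ) (l : Fin (m + 1) → ℕ) : Fin (m + 2) → ℝ :=
  Fin.cons (1 - uu T a)⁻¹ fun i => lowval θ S (l i)

theorem one_lt_inv_uu {T a : ℕ} (h : a < T) : 1 < (1 - uu T a)⁻¹ := by
  have h1 := uu_lt_one h
  have h2 := uu_pos T a
  exact (one_lt_inv₀ (by linarith)).2 (by linarith)

theorem qq_gt {m : ℕ} {θ : ℝ} (h1 : θ < 1) (S : ℕ) {T a : ℕ} (h : a < T)
    (l : Fin (m + 1) → ℕ) (i : Fin (m + 2)) : θ < qq θ S T a l i := by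
  refine Fin.cases ?_ (fun i => ?_) i
  · simp only [qq, Fin.cons_zero]; linarith [one_lt_inv_uu h]
  · simp only [qq, Fin.cons_succ]; exact lowval_gt h1 _ _

theorem qq_update_zero {m : ℕ} (θ : ℝ) (S T a j : ℕ) (l : Fin (m + 1) → ℕ) :
    Function.update (qq θ S T j l) 0 (1 - uu T a)⁻¹ = qq θ S T a l := by
  simp [qq]

theorem qq_update_succ {m : ℕ} (θ : ℝ) (S T a : ℕ) (l : Fin (m + 1) → ℕ) (i : Fin (m + 1))
    (c : ℕ) : Function.update (qq θ S T a l) i.succ (lowval θ S c) =
      qq θ S T a (Function.update l i c) := by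
  simp only [qq, ← Fin.cons_update]
  congr 1
  funext i'
  rcases eq_or_ne i' i with rfl | h
  · simp
  · simp [Function.update_of_ne h]

/-- the total of a function against the unnormalised weights -/
noncomputable def Tot (m T L : ℕ) (f : ℕ → (Fin (m + 1) → ℕ) → ℝ) : ℝ :=
  ∑ j ∈ range T, (∑ l ∈ prof m (m * L + T) j (L + T), gam T j * f j l +
    ∑ a ∈ range j, ∑ l ∈ prof m (m * L + T) j L, bet T a j * f a l)

theorem Tot_add (m T L : ℕ) (f g : ℕ → (Fin (m + 1) → ℕ) → ℝ) :
    Tot m T L (fun a l => f a l + g a l) = Tot m T L f + Tot m T L g := by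
  simp only [Tot, mul_add, sum_add_distrib]; ring

theorem Tot_sum {ι : Type} (s : Finset ι) (m T L : ℕ) (f : ι → ℕ → (Fin (m + 1) → ℕ) → ℝ) :
    Tot m T L (fun a l => ∑ i ∈ s, f i a l) = ∑ i ∈ s, Tot m T L (f i) := by
  classical
  induction s using Finset.induction_on with
  | empty => simp [Tot]
  | insert i s hi ih => simp only [sum_insert hi, Tot_add, ih]

noncomputable def RR (m T L : ℕ) : ℝ :=
  ∑ j ∈ range T, rr T j * (prof m (m * L + T) j (L + T)).card

noncomputable def MM (m T L : ℕ) : ℝ :=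
  ∑ j ∈ range T, ∑ a ∈ range j, bet T a j * (prof m (m * L + T) j L).card

theorem high_bound {m T L : ℕ} {θ : ℝ} (h0 : 0 < θ) (h1 : θ < 1) (M : Mechanism (Fin (m + 2))) :
    Tot m T L (fun a l => M.p (qq θ (m * L + T) T a l) 0) ≤
      ∑ j ∈ range T, ∑ l ∈ prof m (m * L + T) j (L + T),
        rr T j * M.x (qq θ (m * L + T) T j l) 0 := by
  refine sum_le_sum fun j hj => ?_
  have hj : j < T := mem_range.1 hj
  set S := m * L + T
  have hpos : ∀ l : Fin (m + 1) → ℕ, ∀ i, 0 < qq θ S T j l i :=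
    fun l i => h0.trans (qq_gt h1 S hj l i)
  have hu : 0 < 1 - uu T j := by linarith [uu_lt_one hj]
  set U : (Fin (m + 1) → ℕ) → ℝ := fun l => rr T j * ((1 - uu T j) *
    (M.x (qq θ S T j l) 0 * (1 - uu T j)⁻¹ - M.p (qq θ S T j l) 0)) with hU
  have hU0 : ∀ l, 0 ≤ U l := fun l => by
    have := M.ir _ (hpos l) 0
    simp only [qq, Fin.cons_zero] at this
    exact mul_nonneg (rr_nonneg _ _) (mul_nonneg hu.le this)
  have hB : ∑ a ∈ range j, ∑ l ∈ prof m S j L, bet T a j * M.p (qq θ S T a l) 0 ≤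
      ∑ l ∈ prof m S j (L + T), U l := by
    rw [sum_comm]
    refine le_trans (sum_le_sum fun l _ => ?_)
      (sum_le_sum_of_subset_of_nonneg (prof_mono (Nat.le_add_right L T)) fun l _ _ => hU0 l)
    have := column_bound M (qq θ S T j l) (hpos l) 0 (uu T) j
      (fun a ha => uu_lt_one (by omega)) j le_rfl
    simp only [qq_update_zero] at this
    simp only [bet, mul_assoc, ← mul_sum, hU]
    exact mul_le_mul_of_nonneg_left this (rr_nonneg _ _)
  refine (add_le_add le_rfl hB).trans (le_of_eq ?_)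
  rw [← sum_add_distrib]
  refine sum_congr rfl fun l _ => ?_
  simp only [hU, gam]
  field_simp
  ring

theorem low_bound {m T L : ℕ} {θ : ℝ} (h0 : 0 < θ) (h1 : θ < 1) (M : Mechanism (Fin (m + 2)))
    (i : Fin (m + 1)) :
    Tot m T L (fun a l => M.p (qq θ (m * L + T) T a l) i.succ) ≤
      ∑ j ∈ range T, ∑ l ∈ prof m (m * L + T) j (L + T),
        rr T j * M.x (qq θ (m * L + T) T j l) i.succ := by
  set S := m * L + T
  have hpos : ∀ a < T, ∀ l : Fin (m + 1) → ℕ, ∀ i, 0 < qq θ S T a l i :=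
    fun a ha l i => h0.trans (qq_gt h1 S ha l i)
  have hpx : ∀ a < T, ∀ j B, ∀ l ∈ prof m S j B,
      M.p (qq θ S T a l) i.succ ≤ M.x (qq θ S T a l) i.succ := by
    intro a ha j B l hl
    have e1 := M.p_le (hpos a ha l) i.succ
    have e2 := M.x_nonneg _ (hpos a ha l) i.succ
    have e3 : qq θ S T a l i.succ ≤ 1 := by
      simp only [qq, Fin.cons_succ]
      refine lowval_le h1 ?_
      have := (mem_prof.1 hl).1
      have h2 : l i ≤ ∑ i, l i := single_le_sum (fun _ _ => Nat.zero_le _) (mem_univ i)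
      omega
    nlinarith
  set X : ℕ → ℝ := fun a => ∑ l ∈ prof m S a (L + T), M.x (qq θ S T a l) i.succ with hX
  have hX0 : ∀ a < T, 0 ≤ X a := fun a ha =>
    sum_nonneg fun l _ => M.x_nonneg _ (hpos a ha l) _
  have hB : ∀ j < T, ∀ a < j, ∑ l ∈ prof m S j L, M.p (qq θ S T a l) i.succ ≤ X a := by
    intro j hj a ha
    have haT : a < T := ha.trans hj
    calc ∑ l ∈ prof m S j L, M.p (qq θ S T a l) i.succ
        ≤ ∑ l ∈ prof m S j L, M.x (qq θ S T a (Function.update l i (l i + (j - a)))) i.succ := by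
          refine sum_le_sum fun l hl => (hpx a haT j L l hl).trans ?_
          rw [← qq_update_succ]
          refine M.x_mono (hpos a haT l) _ ?_
          simp only [qq, Fin.cons_succ]
          exact lowval_lt h1 S (by omega)
      _ = ∑ l ∈ (prof m S j L).image (fun l => Function.update l i (l i + (j - a))),
            M.x (qq θ S T a l) i.succ := by
          rw [sum_image]
          intro l _ l' _ h
          funext i'
          rcases eq_or_ne i' i with rfl | hi
          · simpa using congrFun h i'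
          · simpa [Function.update_of_ne hi] using congrFun h i'
      _ ≤ X a := by
          refine sum_le_sum_of_subset_of_nonneg ?_ fun l _ _ => M.x_nonneg _ (hpos a haT l) _
          intro l hl
          obtain ⟨l', hl', rfl⟩ := mem_image.1 hl
          exact shift_mem hj (Nat.le_add_left _ _) ha hl' i
  calc Tot m T L (fun a l => M.p (qq θ S T a l) i.succ)
      ≤ ∑ j ∈ range T, (gam T j * X j + ∑ a ∈ range j, bet T a j * X a) := by
        refine sum_le_sum fun j hj => add_le_add ?_ (sum_le_sum fun a ha => ?_)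
        · have hj : j < T := mem_range.1 hj
          rw [← mul_sum]
          exact mul_le_mul_of_nonneg_left (sum_le_sum fun l hl => hpx j hj j _ l hl) (gam_nonneg hj)
        · have hj : j < T := mem_range.1 hj
          rw [← mul_sum]
          exact mul_le_mul_of_nonneg_left (hB j hj a (mem_range.1 ha))
            (bet_nonneg (by omega) _ _)
    _ = ∑ a ∈ range T, (gam T a + ∑ j ∈ Ico (a + 1) T, bet T a j) * X a := by
        rw [sum_add_distrib, sum_swap_tri T (fun a j => bet T a j * X a), ← sum_add_distrib]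
        exact sum_congr rfl fun a _ => by rw [add_mul, sum_mul]
    _ ≤ ∑ a ∈ range T, rr T a * X a :=
        sum_le_sum fun a ha => mul_le_mul_of_nonneg_right (row_bound (mem_range.1 ha))
          (hX0 a (mem_range.1 ha))
    _ = _ := sum_congr rfl fun a _ => by rw [hX, mul_sum]

theorem upper_bound {m T L : ℕ} {θ : ℝ} (h0 : 0 < θ) (h1 : θ < 1) (M : Mechanism (Fin (m + 2))) :
    Tot m T L (fun a l => ∑ i, M.p (qq θ (m * L + T) T a l) i) ≤ RR m T L := by
  set S := m * L + T
  rw [Tot_sum, Fin.sum_univ_succ]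
  refine (add_le_add (high_bound h0 h1 M) (sum_le_sum fun i _ => low_bound h0 h1 M i)).trans ?_
  rw [← Fin.sum_univ_succ (fun i => ∑ j ∈ range T, ∑ l ∈ prof m S j (L + T),
        rr T j * M.x (qq θ S T j l) i), sum_comm]
  refine sum_le_sum fun j hj => ?_
  rw [sum_comm]
  calc ∑ l ∈ prof m S j (L + T), ∑ i, rr T j * M.x (qq θ S T j l) i
      ≤ ∑ _l ∈ prof m S j (L + T), rr T j := by
        refine sum_le_sum fun l _ => ?_
        rw [← mul_sum]
        exact mul_le_of_le_one_right (rr_nonneg _ _)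
          (M.x_sum _ fun i => h0.trans (qq_gt h1 S (mem_range.1 hj) l i))
    _ = _ := by rw [sum_const, nsmul_eq_mul, mul_comm]

/-- the price offered to the high bidder, read off the values of the low bidders -/
noncomputable def price (m T S : ℕ) (θ : ℝ) (s : ℝ) : ℝ :=
  (1 - uu T ⌊(S : ℝ) - (s - (m + 1) * (θ + (1 - θ) / (S + 1))) / ((1 - θ) / (S + 1))⌋₊)⁻¹

theorem price_eq {m T S j B : ℕ} {θ : ℝ} (h1 : θ < 1) (hj : j ≤ S) {l : Fin (m + 1) → ℕ}
    (hl : l ∈ prof m S j B) :
    price m T S θ (∑ i, lowval θ S (l i)) = (1 - uu T j)⁻¹ := by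
  have hs : ((∑ i, l i : ℕ) : ℝ) = S - j := by rw [(mem_prof.1 hl).1, Nat.cast_sub hj]
  have h0 : 0 < 1 - θ := by linarith
  have : (S : ℝ) - (∑ i, lowval θ S (l i) - (m + 1) * (θ + (1 - θ) / (S + 1))) /
      ((1 - θ) / (S + 1)) = j := by
    simp only [lowval, sum_add_distrib, ← mul_sum, sum_const, card_univ, Fintype.card_fin,
      nsmul_eq_mul]
    push_cast at hs ⊢
    rw [hs]
    field_simp
    ring
  rw [price, this, Nat.floor_natCast]

theorem inv_uu_lt {T a j : ℕ} (hj : j < T) (ha : a < j) : (1 - uu T a)⁻¹ < (1 - uu T j)⁻¹ := by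
  have h1 := uu_lt_one hj
  have h2 := uu_lt (show 0 < T by omega) ha
  exact inv_strictAnti₀ (by linarith) (by linarith)

/-- total of a function equal to the column price on the top points and to `c` below -/
theorem Tot_eq {m T L : ℕ} (f : ℕ → (Fin (m + 1) → ℕ) → ℝ) (c : ℝ)
    (hG : ∀ j < T, ∀ l ∈ prof m (m * L + T) j (L + T), f j l = (1 - uu T j)⁻¹)
    (hB : ∀ j < T, ∀ a < j, ∀ l ∈ prof m (m * L + T) j L, f a l = c) :
    Tot m T L f = RR m T L + c * MM m T L := by
  simp only [Tot, RR, MM, mul_sum, ← sum_add_distrib]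
  refine sum_congr rfl fun j hj => ?_
  have hj : j < T := mem_range.1 hj
  have hu : 1 - uu T j ≠ 0 := by linarith [uu_lt_one hj]
  congr 1
  · rw [sum_congr rfl (g := fun _ => rr T j)]
    · simp [mul_comm]
    · intro l hl
      rw [hG j hj l hl, gam]; field_simp
  · refine sum_congr rfl fun a ha => ?_
    rw [sum_congr rfl (g := fun _ => bet T a j * c)]
    · simp only [sum_const, nsmul_eq_mul]; ring
    · intro l hl
      rw [hB j hj a (mem_range.1 ha) l hl]

theorem RR_nonneg (m T L : ℕ) : 0 ≤ RR m T L :=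
  sum_nonneg fun _ _ => mul_nonneg (rr_nonneg _ _) (Nat.cast_nonneg _)

theorem RR_le {m T L : ℕ} (hT : 0 < T) : RR m T L ≤ Real.exp 1 * ((L : ℝ) + T) ^ m := by
  have h1 : ∑ j ∈ range T, rr T j = Real.exp 1 := by
    rw [range_eq_Ico, sum_rr (Nat.zero_le _)]
    have : (T : ℝ) ≠ 0 := by exact_mod_cast hT.ne'
    simp [ww, hT, this]
  rw [← h1, sum_mul]
  refine sum_le_sum fun j _ => mul_le_mul_of_nonneg_left ?_ (rr_nonneg _ _)
  exact_mod_cast card_prof_le m _ j (L + T)

theorem le_MM {m T L : ℕ} (hT : 0 < T) :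
    ((T : ℝ) - 1) * (1 - Real.exp (-1 / T)) * (L : ℝ) ^ m ≤ MM m T L := by
  rw [← sum_bet hT, sum_mul]
  refine sum_le_sum fun j hj => ?_
  rw [sum_mul]
  refine sum_le_sum fun a _ => mul_le_mul_of_nonneg_left ?_ (bet_nonneg hT _ _)
  have hj : j < T := mem_range.1 hj
  exact_mod_cast le_card_prof m _ j L (by omega)

theorem MM_le_Tot_one (m T L : ℕ) : MM m T L ≤ Tot m T L (fun _ _ => 1) := by
  refine sum_le_sum fun j hj => ?_
  have hj : j < T := mem_range.1 hj
  have : 0 ≤ ∑ l ∈ prof m (m * L + T) j (L + T), gam T j * 1 :=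
    sum_nonneg fun _ _ => by simpa using gam_nonneg hj
  have h2 : ∑ a ∈ range j, bet T a j * (prof m (m * L + T) j L).card =
      ∑ a ∈ range j, ∑ l ∈ prof m (m * L + T) j L, bet T a j * 1 :=
    sum_congr rfl fun a _ => by simp [mul_comm]
  linarith

end Pool.Agent.Lib.MP_0f9109_lc
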