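import Pool.Agent.Lib.MP_0f9109_lc.Inst

/-!
The distribution, its lookahead revenue and its optimal revenue.
-/

namespace Pool.Agent.Lib.MP_0f9109_lc

open Finset

/-- the full valuation vector: bidder `0` is the reserve bidder -/
noncomputable def pt {m : ℕ} (θ : ℝ) (S T a : ℕ) (l : Fin (m + 1) → ℕ) : Fin (m + 3) → ℝ :=
  Fin.cons θ (qq θ S T a l)

noncomputable def D0 (m T L : ℕ) (θ : ℝ) : (Fin (m + 3) → ℝ) →₀ ℝ :=
  ∑ j ∈ range T, (∑ l ∈ prof m (m * L + T) j (L + T),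
      Finsupp.single (pt θ (m * L + T) T j l) (gam T j) +
    ∑ a ∈ range j, ∑ l ∈ prof m (m * L + T) j L,
      Finsupp.single (pt θ (m * L + T) T a l) (bet T a j))

theorem Ex_D0 (m T L : ℕ) (θ : ℝ) (f : (Fin (m + 3) → ℝ) → ℝ) :
    Ex f (D0 m T L θ) = Tot m T L fun a l => f (pt θ (m * L + T) T a l) := by
  simp only [D0, Tot, map_sum, map_add, Ex_single]

noncomputable def DD (m T L : ℕ) (θ : ℝ) : (Fin (m + 3) → ℝ) →₀ ℝ :=
  (Tot m T L fun _ _ => 1)⁻¹ • D0 m T L θ

theorem Ex_DD (m T L : ℕ) (θ : ℝ) (f : (Fin (m + 3) → ℝ) → ℝ) :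
    Ex f (DD m T L θ) = (Tot m T L fun _ _ => 1)⁻¹ *
      Tot m T L fun a l => f (pt θ (m * L + T) T a l) := by
  rw [DD, map_smul, Ex_D0, smul_eq_mul]

theorem D0_nonneg (m T L : ℕ) (θ : ℝ) (v : Fin (m + 3) → ℝ) : 0 ≤ D0 m T L θ v := by
  classical
  simp only [D0, Finsupp.finsetSum_apply, Finsupp.add_apply, Finsupp.single_apply]
  refine sum_nonneg fun j hj => add_nonneg (sum_nonneg fun l _ => ?_)
    (sum_nonneg fun a _ => sum_nonneg fun l _ => ?_)
  · split_ifs
    · exact gam_nonneg (mem_range.1 hj)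
    · exact le_rfl
  · split_ifs
    · exact bet_nonneg (by have := mem_range.1 hj; omega) _ _
    · exact le_rfl

theorem DD_support {m T L : ℕ} {θ : ℝ} {v : Fin (m + 3) → ℝ} (hv : v ∈ (DD m T L θ).support) :
    ∃ a < T, ∃ l, v = pt θ (m * L + T) T a l := by
  classical
  by_contra hne
  push Not at hne
  apply Finsupp.mem_support_iff.1 hv
  have : D0 m T L θ v = 0 := by
    simp only [D0, Finsupp.finsetSum_apply, Finsupp.add_apply, Finsupp.single_apply]
    refine sum_eq_zero fun j hj => ?_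
    have hj := mem_range.1 hj
    rw [sum_eq_zero, sum_eq_zero, add_zero]
    · intro a ha
      have ha := mem_range.1 ha
      exact sum_eq_zero fun l _ => if_neg (hne a (by omega) l).symm
    · exact fun l _ => if_neg (hne j hj l).symm
  simp [DD, this]

theorem MM_pos {m T L : ℕ} (hT : 2 ≤ T) (hL : 0 < L) : 0 < MM m T L := by
  refine lt_of_lt_of_le ?_ (le_MM (by omega))
  have h1 : (2 : ℝ) ≤ T := by exact_mod_cast hT
  have h2 : (0 : ℝ) < L := by exact_mod_cast hL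
  have h3 : Real.exp (-1 / T) < 1 :=
    Real.exp_lt_one_iff.2 (div_neg_of_neg_of_pos (by norm_num) (by linarith))
  have h4 : 0 < (T : ℝ) - 1 := by linarith
  have h5 : 0 < 1 - Real.exp (-1 / T) := by linarith
  positivity

theorem Z_pos {m T L : ℕ} (hT : 2 ≤ T) (hL : 0 < L) : 0 < Tot m T L fun _ _ => 1 :=
  (MM_pos hT hL).trans_le (MM_le_Tot_one m T L)

theorem pt_zero {m : ℕ} (θ : ℝ) (S T a : ℕ) (l : Fin (m + 1) → ℕ) : pt θ S T a l 0 = θ := rfl

theorem pt_succ {m : ℕ} (θ : ℝ) (S T a : ℕ) (l : Fin (m + 1) → ℕ) (i : Fin (m + 2)) :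
    pt θ S T a l i.succ = qq θ S T a l i := rfl

theorem pt_gt {m : ℕ} {θ : ℝ} (h1 : θ < 1) (S : ℕ) {T a : ℕ} (ha : a < T) (l : Fin (m + 1) → ℕ)
    {i : Fin (m + 3)} (hi : i ≠ 0) : θ < pt θ S T a l i := by
  obtain ⟨i, rfl⟩ := Fin.exists_succ_eq.2 hi
  exact qq_gt h1 S ha l i

theorem isDist_DD {m T L : ℕ} {θ : ℝ} (h0 : 0 < θ) (h1 : θ < 1) (hT : 2 ≤ T) (hL : 0 < L) :
    IsDist (DD m T L θ) := by
  have hZ := Z_pos (m := m) hT hL
  refine ⟨fun v => ?_, ?_, fun v hv i => ?_⟩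
  · simp only [DD, Finsupp.smul_apply, smul_eq_mul]
    exact mul_nonneg (inv_nonneg.2 hZ.le) (D0_nonneg _ _ _ _ _)
  · rw [mass_eq_Ex, Ex_DD, inv_mul_cancel₀ hZ.ne']
  · obtain ⟨a, ha, l, rfl⟩ := DD_support hv
    rcases eq_or_ne i 0 with rfl | hi
    · exact h0
    · exact h0.trans (pt_gt h1 _ ha l hi)

/-- the set of the top bidders -/
def K0 (m : ℕ) : Finset (Fin (m + 3)) := univ.erase 0

theorem mem_K0 {m : ℕ} {i : Fin (m + 3)} : i ∈ K0 m ↔ i ≠ 0 := by simp [K0]

theorem topK_eq {m : ℕ} {v : Fin (m + 3) → ℝ} (hv : ∀ i, i ≠ 0 → v 0 < v i) :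
    topK (m + 2) v = K0 m := by
  classical
  ext i
  rw [mem_K0, topK, mem_filter]
  simp only [mem_univ, true_and]
  rcases eq_or_ne i 0 with rfl | hi
  · simp only [ne_eq, not_true_eq_false, iff_false, not_lt]
    have : (univ.erase (0 : Fin (m + 3))).card = m + 2 := by simp
    rw [← this]
    refine card_le_card fun j hj => ?_
    simp only [mem_filter, mem_univ, true_and]
    exact Or.inl (hv j (mem_erase.1 hj).1)
  · simp only [ne_eq, hi, not_false_eq_true, iff_true]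
    have : ((univ.erase (0 : Fin (m + 3))).erase i).card = m + 1 := by
      rw [card_erase_of_mem (by simp [hi])]; simp
    refine lt_of_le_of_lt (card_le_card (t := (univ.erase (0 : Fin (m + 3))).erase i)
      fun j hj => ?_) (by omega)
    simp only [mem_filter, mem_univ, true_and] at hj
    simp only [mem_erase, mem_univ, and_true]
    constructor
    · rintro rfl
      rcases hj with h | h
      · exact lt_irrefl _ h
      · exact lt_irrefl _ h.2
    · rintro rfl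
      have := hv i hi
      rcases hj with h | h
      · linarith
      · linarith [h.1]

/-- the top bidders enumerated -/
def eK (m : ℕ) : Fin (m + 2) ≃ {i // i ∈ K0 m} where
  toFun i := ⟨i.succ, mem_K0.2 (Fin.succ_ne_zero i)⟩
  invFun i := i.1.pred (mem_K0.1 i.2)
  left_inv i := by simp
  right_inv i := by simp

theorem restrict_pt {m : ℕ} (θ : ℝ) (S T a : ℕ) (l : Fin (m + 1) → ℕ) :
    (fun i : {i // i ∈ K0 m} => pt θ S T a l i.1) = qq θ S T a l ∘ (eK m).symm := by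
  funext i
  obtain ⟨i, rfl⟩ := (eK m).surjective i
  simp only [Function.comp, Equiv.symm_apply_apply]
  rfl

theorem onEvent_DD {m T L : ℕ} {θ : ℝ} (h1 : θ < 1) {v : Fin (m + 3) → ℝ} (hv : v 0 = θ) :
    onEvent (DD m T L θ) (K0 m) v = DD m T L θ := by
  classical
  rw [onEvent, Finsupp.filter_eq_self_iff]
  intro w hw
  obtain ⟨a, ha, l, rfl⟩ := DD_support (Finsupp.mem_support_iff.2 hw)
  constructor
  · intro j hj
    have : j = 0 := by simpa [mem_K0] using hj
    subst this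
    rw [hv, pt_zero]
  · intro i hi j hj
    have : j = 0 := by simpa [mem_K0] using hj
    subst this
    rw [hv]
    exact (pt_gt h1 _ ha l (mem_K0.1 hi)).le

theorem rev_condDist {m T L : ℕ} {θ : ℝ} (h0 : 0 < θ) (h1 : θ < 1) (hT : 2 ≤ T) (hL : 0 < L)
    {v : Fin (m + 3) → ℝ} (hv : v 0 = θ) (M : Mechanism {i // i ∈ K0 m}) :
    rev (condDist (DD m T L θ) (K0 m) v) M = (Tot m T L fun _ _ => 1)⁻¹ *
      Tot m T L fun a l => ∑ i, (M.comap (eK m)).p (qq θ (m * L + T) T a l) i := by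
  rw [condDist, onEvent_DD h1 hv, (isDist_DD h0 h1 hT hL).2.1, inv_one, one_smul, rev_eq_Ex,
    Ex_mapDomain, Ex_DD]
  simp only [Function.comp, Mechanism.comap_sum_p, restrict_pt]

/-- the optimal mechanism for the top bidders -/
noncomputable def Mtop (m T S : ℕ) (θ : ℝ) : Mechanism (Fin (m + 2)) :=
  posted1 0 (fun v => price m T S θ (∑ i : Fin (m + 1), v i.succ))
    (fun v b => by simp)

theorem Tot_Mtop {m T L : ℕ} {θ : ℝ} (h1 : θ < 1) :
    (Tot m T L fun a l => ∑ i, (Mtop m T (m * L + T) θ).p (qq θ (m * L + T) T a l) i) =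
      RR m T L := by
  rw [Tot_eq _ 0]
  · simp
  · intro j hj l hl
    simp only [Mtop, posted1_sum_p, qq, Fin.cons_succ, Fin.cons_zero,
      price_eq h1 (show j ≤ m * L + T by omega) hl, le_refl, if_true]
  · intro j hj a ha l hl
    simp only [Mtop, posted1_sum_p, qq, Fin.cons_succ, Fin.cons_zero,
      price_eq h1 (show j ≤ m * L + T by omega) hl, not_le.2 (inv_uu_lt hj ha), if_false]

/-- a mechanism that also uses the reserve bidder -/
noncomputable def Mall (m T S : ℕ) (θ : ℝ) : Mechanism (Fin (m + 3)) :=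
  posted (Fin.succ 0) 0 (Fin.succ_ne_zero _)
    (fun v => price m T S θ (∑ i : Fin (m + 1), v i.succ.succ))
    (fun v b => by
      have : ∀ i : Fin (m + 1), i.succ.succ ≠ Fin.succ 0 :=
        fun i h => Fin.succ_ne_zero _ (Fin.succ_injective _ h)
      simp only [Function.update_of_ne (this _)])
    (fun v b => by simp only [Function.update_of_ne (Fin.succ_ne_zero _)]) θ

theorem Tot_Mall {m T L : ℕ} {θ : ℝ} (h1 : θ < 1) :
    (Tot m T L fun a l => ∑ i, (Mall m T (m * L + T) θ).p (pt θ (m * L + T) T a l) i) =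
      RR m T L + θ * MM m T L := by
  rw [Tot_eq _ θ]
  · intro j hj l hl
    simp only [Mall, posted_sum_p, pt_succ, pt_zero, qq, Fin.cons_succ, Fin.cons_zero,
      price_eq h1 (show j ≤ m * L + T by omega) hl, le_refl, if_true, lt_irrefl, false_and,
      if_false, add_zero]
  · intro j hj a ha l hl
    simp only [Mall, posted_sum_p, pt_succ, pt_zero, qq, Fin.cons_succ, Fin.cons_zero,
      price_eq h1 (show j ≤ m * L + T by omega) hl, not_le.2 (inv_uu_lt hj ha), if_false,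
      inv_uu_lt hj ha, le_refl, and_self, if_true, zero_add]

theorem le_OPT {m T L : ℕ} {θ : ℝ} (h0 : 0 < θ) (h1 : θ < 1) (hT : 2 ≤ T) (hL : 0 < L) :
    (Tot m T L fun _ _ => 1)⁻¹ * (RR m T L + θ * MM m T L) ≤ OPT (DD m T L θ) := by
  refine le_trans (le_of_eq ?_) (rev_le_OPT _ (isDist_DD h0 h1 hT hL) (Mall m T (m * L + T) θ))
  rw [rev_eq_Ex, Ex_DD, Tot_Mall h1]

theorem look_eq {m T L : ℕ} {θ : ℝ} (h1 : θ < 1)
    (M : (K : Finset (Fin (m + 3))) → ({j // j ∉ K} → ℝ) → Mechanism {i // i ∈ K}) :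
    ((DD m T L θ).sum fun v x => x * ∑ i : {i // i ∈ topK (m + 2) v},
      (M (topK (m + 2) v) fun j => v j.1).p (fun l => v l.1) i) =
    (Tot m T L fun _ _ => 1)⁻¹ * Tot m T L fun a l =>
      ∑ i, ((M (K0 m) fun _ => θ).comap (eK m)).p (qq θ (m * L + T) T a l) i := by
  rw [← Ex_apply, Ex_congr (g := fun v => ∑ i : {i // i ∈ K0 m},
      (M (K0 m) fun _ => θ).p (fun l => v l.1) i), Ex_DD]
  · simp only [Mechanism.comap_sum_p, restrict_pt]
  · intro v hv
    obtain ⟨a, ha, l, rfl⟩ := DD_support hv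
    have key : ∀ K : Finset (Fin (m + 3)), K = K0 m →
        ∑ i : {i // i ∈ K}, (M K fun j => pt θ (m * L + T) T a l j.1).p
          (fun i => pt θ (m * L + T) T a l i.1) i =
        ∑ i : {i // i ∈ K0 m}, (M (K0 m) fun _ => θ).p
          (fun i => pt θ (m * L + T) T a l i.1) i := by
      rintro _ rfl
      have : (fun j : {j // j ∉ K0 m} => pt θ (m * L + T) T a l j.1) = fun _ => θ := by
        funext j
        have : j.1 = 0 := by simpa [mem_K0] using j.2
        rw [this, pt_zero]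
      rw [this]
    exact key _ (topK_eq fun i hi => pt_gt h1 _ ha l hi)

theorem look_le {m T L : ℕ} {θ : ℝ} (h0 : 0 < θ) (h1 : θ < 1) (hT : 2 ≤ T) (hL : 0 < L) {r : ℝ}
    (hr : IsLookaheadRev (m + 2) (DD m T L θ) r) :
    r ≤ (Tot m T L fun _ _ => 1)⁻¹ * RR m T L := by
  obtain ⟨M, -, rfl⟩ := hr
  rw [look_eq h1]
  exact mul_le_mul_of_nonneg_left (upper_bound h0 h1 _) (inv_nonneg.2 (Z_pos hT hL).le)

/-- the mechanism that never sells -/
def Mzero (ι : Type) [Fintype ι] [DecidableEq ι] : Mechanism ι where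
  x _ _ := 0
  p _ _ := 0
  x_nonneg _ _ _ := le_rfl
  x_sum _ _ := by simp
  truthful _ _ _ _ _ := le_rfl
  ir _ _ _ := by simp

theorem look_exists {m T L : ℕ} {θ : ℝ} (h0 : 0 < θ) (h1 : θ < 1) (hT : 2 ≤ T) (hL : 0 < L) :
    ∃ r, IsLookaheadRev (m + 2) (DD m T L θ) r := by
  classical
  let M : (K : Finset (Fin (m + 3))) → ({j // j ∉ K} → ℝ) → Mechanism {i // i ∈ K} :=
    fun K _ => if h : K = K0 m then h ▸ (Mtop m T (m * L + T) θ).comap (eK m).symm else Mzero _
  have hM : ∀ w, M (K0 m) w = (Mtop m T (m * L + T) θ).comap (eK m).symm := fun w => by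
    simp [M]
  refine ⟨_, M, ?_, rfl⟩
  intro v hv
  obtain ⟨a, ha, l, rfl⟩ := DD_support hv
  have key : ∀ K : Finset (Fin (m + 3)), K = K0 m → ∀ M' : Mechanism {i // i ∈ K},
      rev (condDist (DD m T L θ) K (pt θ (m * L + T) T a l)) M' ≤
        rev (condDist (DD m T L θ) K (pt θ (m * L + T) T a l))
          (M K fun j => pt θ (m * L + T) T a l j.1) := by
    rintro _ rfl M'
    rw [hM (fun j => pt θ (m * L + T) T a l j.1), rev_condDist h0 h1 hT hL (pt_zero _ _ _ _ _),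
      rev_condDist h0 h1 hT hL (pt_zero _ _ _ _ _)]
    refine mul_le_mul_of_nonneg_left ((upper_bound h0 h1 _).trans (le_of_eq ?_))
      (inv_nonneg.2 (Z_pos hT hL).le)
    rw [← Tot_Mtop h1]
    refine congrArg (Tot m T L) (funext fun a => funext fun l => ?_)
    rw [Mechanism.comap_sum_p, Mechanism.comap_sum_p]
    have : (qq θ (m * L + T) T a l ∘ (eK m).symm) ∘ (eK m).symm.symm = qq θ (m * L + T) T a l := by
      funext i
      simp
    rw [this]
  exact key _ (topK_eq fun i hi => pt_gt h1 _ ha l hi)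

theorem OPT_pos {m T L : ℕ} {θ : ℝ} (h0 : 0 < θ) (h1 : θ < 1) (hT : 2 ≤ T) (hL : 0 < L) :
    0 < OPT (DD m T L θ) := by
  have hZ := Z_pos (m := m) hT hL
  have hM := MM_pos (m := m) hT hL
  have hR := RR_nonneg m T L
  exact lt_of_lt_of_le (by positivity) (le_OPT (m := m) h0 h1 hT hL)

theorem look_ratio_le {m T L : ℕ} {θ : ℝ} (h0 : 0 < θ) (h1 : θ < 1) (hT : 2 ≤ T) (hL : 0 < L)
    {r : ℝ} (hr : IsLookaheadRev (m + 2) (DD m T L θ) r) :
    r / OPT (DD m T L θ) ≤ RR m T L / (RR m T L + θ * MM m T L) := by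
  have hZ := Z_pos (m := m) hT hL
  have hM := MM_pos (m := m) hT hL
  have hR := RR_nonneg m T L
  have hO := le_OPT (m := m) h0 h1 hT hL
  have hpos : 0 < (Tot m T L fun _ _ => 1)⁻¹ * (RR m T L + θ * MM m T L) := by positivity
  calc r / OPT (DD m T L θ)
      ≤ ((Tot m T L fun _ _ => 1)⁻¹ * RR m T L) / OPT (DD m T L θ) :=
        div_le_div_of_nonneg_right (look_le h0 h1 hT hL hr) (hpos.trans_le hO).le
    _ ≤ ((Tot m T L fun _ _ => 1)⁻¹ * RR m T L) /
          ((Tot m T L fun _ _ => 1)⁻¹ * (RR m T L + θ * MM m T L)) :=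
        div_le_div_of_nonneg_left (by positivity) hpos hO
    _ = _ := mul_div_mul_left _ _ (inv_ne_zero hZ.ne')

theorem no_tie {m T L : ℕ} {θ : ℝ} (h1 : θ < 1) {v : Fin (m + 3) → ℝ}
    (hv : v ∈ (DD m T L θ).support) :
    ∀ i ∈ topK (m + 2) v, ∀ j, j ∉ topK (m + 2) v → v j < v i := by
  obtain ⟨a, ha, l, rfl⟩ := DD_support hv
  rw [topK_eq fun i hi => pt_gt h1 _ ha l hi]
  intro i hi j hj
  have : j = 0 := by simpa [mem_K0] using hj
  subst this
  exact pt_gt h1 _ ha l (mem_K0.1 hi)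

theorem ratio_le {m N : ℕ} (hN : 2 ≤ N) :
    RR m N (N * N) / (RR m N (N * N) + (1 - 1 / (N : ℝ)) * MM m N (N * N)) ≤
      Real.exp 1 * (1 + 1 / (N : ℝ)) ^ m /
        (Real.exp 1 * (1 + 1 / (N : ℝ)) ^ m +
          (1 - 1 / (N : ℝ)) * ((1 - 1 / (N : ℝ)) / (1 + 1 / (N : ℝ)))) := by
  have hN' : (2 : ℝ) ≤ N := by exact_mod_cast hN
  have hN0 : (0 : ℝ) < N := by linarith
  have hθ : 0 < 1 - 1 / (N : ℝ) := by
    rw [sub_pos, div_lt_one hN0]; linarith
  have hR := RR_le (m := m) (T := N) (L := N * N) (by omega)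
  have hM := le_MM (m := m) (T := N) (L := N * N) (by omega)
  have hR0 := RR_nonneg m N (N * N)
  have hM0 := MM_pos (m := m) (T := N) (L := N * N) hN (by positivity)
  have hexp : (1 - 1 / (N : ℝ)) / (1 + 1 / (N : ℝ)) ≤ ((N : ℝ) - 1) * (1 - Real.exp (-1 / N)) := by
    have h1 : 1 + 1 / (N : ℝ) ≤ Real.exp (1 / N) := by
      have := Real.add_one_le_exp (1 / (N : ℝ)); linarith
    have h2 : Real.exp (-1 / N) ≤ (1 + 1 / (N : ℝ))⁻¹ := by
      rw [neg_div, Real.exp_neg]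
      exact inv_anti₀ (by positivity) h1
    have h3 : (1 - 1 / (N : ℝ)) / (1 + 1 / (N : ℝ)) = ((N : ℝ) - 1) * (1 - (1 + 1 / (N : ℝ))⁻¹) := by
      field_simp; ring
    rw [h3]
    exact mul_le_mul_of_nonneg_left (by linarith) (by linarith)
  set P : ℝ := (((N * N : ℕ) : ℝ)) ^ m with hP
  have hP0 : 0 < P := by rw [hP]; positivity
  have hA : (((N * N : ℕ) : ℝ) + N) ^ m = (1 + 1 / (N : ℝ)) ^ m * P := by
    rw [hP, ← mul_pow]
    congr 1
    push_cast
    field_simp
  rw [hA] at hR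
  set A := Real.exp 1 * (1 + 1 / (N : ℝ)) ^ m with hAdef
  have hA0 : 0 < A := by positivity
  set ν := (1 - 1 / (N : ℝ)) / (1 + 1 / (N : ℝ)) with hν
  have hν0 : 0 < ν := by positivity
  have hM' : ν * P ≤ MM m N (N * N) := (mul_le_mul_of_nonneg_right hexp hP0.le).trans hM
  have hR' : RR m N (N * N) ≤ A * P := by rw [hAdef, mul_assoc]; exact hR
  rw [div_le_div_iff₀ (by positivity) (by positivity)]
  have e1 : RR m N (N * N) * ν ≤ A * MM m N (N * N) := by
    calc RR m N (N * N) * ν ≤ A * P * ν := mul_le_mul_of_nonneg_right hR' hν0.le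
      _ = A * (ν * P) := by ring
      _ ≤ _ := mul_le_mul_of_nonneg_left hM' hA0.le
  nlinarith [mul_le_mul_of_nonneg_left e1 hθ.le]

open Filter Topology in
theorem main (m : ℕ) (ε : ℝ) (hε : 0 < ε) :
    ∃ D : (Fin (m + 3) → ℝ) →₀ ℝ, IsDist D ∧ 0 < OPT D ∧
      (∀ v ∈ D.support, ∀ i ∈ topK (m + 2) v, ∀ j, j ∉ topK (m + 2) v → v j < v i) ∧
      (∃ r, IsLookaheadRev (m + 2) D r) ∧
      ∀ r, IsLookaheadRev (m + 2) D r → r / OPT D ≤ Real.exp 1 / (1 + Real.exp 1) + ε := by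
  have h0 : Tendsto (fun N : ℕ => 1 / (N : ℝ)) atTop (𝓝 0) := tendsto_one_div_atTop_nhds_zero_nat
  have hc : ContinuousAt (fun y : ℝ => Real.exp 1 * (1 + y) ^ m /
      (Real.exp 1 * (1 + y) ^ m + (1 - y) * ((1 - y) / (1 + y)))) 0 := by
    refine ContinuousAt.div (by fun_prop) ?_ ?_
    · refine ContinuousAt.add (by fun_prop) (ContinuousAt.mul (by fun_prop) ?_)
      exact ContinuousAt.div (by fun_prop) (by fun_prop) (by norm_num)
    · have := Real.exp_pos 1
      simp only [add_zero, one_pow, mul_one, sub_zero, div_one]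
      positivity
  have h1 := hc.tendsto.comp h0
  simp only [add_zero, one_pow, mul_one, sub_zero, div_one] at h1
  rw [add_comm (Real.exp 1) 1] at h1
  have h2 := h1.eventually (gt_mem_nhds (lt_add_of_pos_right _ hε))
  obtain ⟨N, hN1, hN⟩ := (h2.and (eventually_ge_atTop 2)).exists
  have hN' : (2 : ℝ) ≤ N := by exact_mod_cast hN
  have hN0 : (0 : ℝ) < N := by linarith
  have hθ : 0 < 1 - 1 / (N : ℝ) := by
    rw [sub_pos, div_lt_one hN0]; linarith
  have hθ' : 1 - 1 / (N : ℝ) < 1 := by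
    have : 0 < 1 / (N : ℝ) := by positivity
    linarith
  have hL : 0 < N * N := by positivity
  exact ⟨DD m N (N * N) (1 - 1 / (N : ℝ)), isDist_DD hθ hθ' hN hL, OPT_pos hθ hθ' hN hL,
    fun v hv => no_tie hθ' hv, look_exists hθ hθ' hN hL,
    fun r hr => ((look_ratio_le hθ hθ' hN hL hr).trans (ratio_le hN)).trans hN1.le⟩

end Pool.Agent.Lib.MP_0f9109_lc
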