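import Pool.Agent.Lib.MP_0f9109_lc.Basic

/-!
The symmetric hard instance: each of the top bidders may be the high bidder, the others have values
just below `1` whose levels, added modulo `T`, determine the price of the high bidder.
-/

namespace Pool.Agent.Lib.MP_0f9109_lc.Sym

open Finset Pool.Agent.Lib.MP_0f9109_lc

theorem column_bound' {ι : Type} [Fintype ι] [DecidableEq ι] (M : Mechanism ι) (v : ι → ℝ)
    (hv : ∀ j, 0 < v j) (h : ι) (u : ℕ → ℝ) (a : ℕ) (hu1 : ∀ b ≤ a, u b < 1) :
    (1 - u 0) * (M.x (Function.update v h (1 - u 0)⁻¹) h * (1 - u 0)⁻¹ -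
        M.p (Function.update v h (1 - u 0)⁻¹) h) +
      ∑ b ∈ range a, (u (b + 1) - u b) * M.p (Function.update v h (1 - u b)⁻¹) h ≤
      (1 - u a) * (M.x (Function.update v h (1 - u a)⁻¹) h * (1 - u a)⁻¹ -
        M.p (Function.update v h (1 - u a)⁻¹) h) := by
  induction a with
  | zero => simp
  | succ a ih =>
    have h1 : 0 < 1 - u a := by linarith [hu1 a (by omega)]
    have h2 : 0 < 1 - u (a + 1) := by linarith [hu1 (a + 1) le_rfl]
    rw [sum_range_succ]
    have ih := ih fun b hb => hu1 b (by omega)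
    have ht := M.truthful _ (update_pos hv h (inv_pos.2 h2)) h _ (inv_pos.2 h1)
    simp only [Function.update_idem, Function.update_self] at ht
    set X := M.x (Function.update v h (1 - u a)⁻¹) h
    set P := M.p (Function.update v h (1 - u a)⁻¹) h
    set U' := M.x (Function.update v h (1 - u (a + 1))⁻¹) h * (1 - u (a + 1))⁻¹ -
        M.p (Function.update v h (1 - u (a + 1))⁻¹) h
    have e1 : (1 - u a) * (X * (1 - u a)⁻¹ - P) = X - (1 - u a) * P := by field_simp
    have e2 : (1 - u (a + 1)) * (X * (1 - u (a + 1))⁻¹ - P) = X - (1 - u (a + 1)) * P := by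
      field_simp
    have := mul_le_mul_of_nonneg_left ht h2.le
    nlinarith

/-- payments at a point of value at most one are controlled by the utility higher up -/
theorem low_pay {ι : Type} [Fintype ι] [DecidableEq ι] (M : Mechanism ι) (v : ι → ℝ)
    (hv : ∀ j, 0 < v j) (h : ι) {u c : ℝ} (hu0 : 0 ≤ u) (hu1 : u < 1) (hc0 : 0 < c) (hc : c ≤ 1) :
    u * M.p (Function.update v h c) h ≤
      (1 - u) * (M.x (Function.update v h (1 - u)⁻¹) h * (1 - u)⁻¹ -
        M.p (Function.update v h (1 - u)⁻¹) h) := by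
  have h1 : 0 < 1 - u := by linarith
  have ht := M.truthful _ (update_pos hv h (inv_pos.2 h1)) h _ hc0
  simp only [Function.update_idem, Function.update_self] at ht
  have h2 := M.p_le (update_pos hv h hc0) h
  have h3 := M.x_nonneg _ (update_pos hv h hc0) h
  simp only [Function.update_self] at h2
  set X := M.x (Function.update v h c) h
  set P := M.p (Function.update v h c) h
  have e1 : (1 - u) * (X * (1 - u)⁻¹ - P) = X - (1 - u) * P := by field_simp
  have := mul_le_mul_of_nonneg_left ht h1.le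
  nlinarith

/-- parameters of the instance -/
structure Par where
  m : ℕ
  U : ℕ
  T : ℕ
  N : ℕ
  θ : ℝ
  hU : 0 < U
  hT : U < T
  hN : 0 < N
  h0 : 0 < θ
  h1 : θ < 1

namespace Par

variable (P : Par)

def L : ℕ := P.T * P.N
def A : ℕ := P.T - P.U - 1
noncomputable def u (a : ℕ) : ℝ := (P.U : ℝ) / ((P.T : ℝ) - a)
noncomputable def t (a : ℕ) : ℝ := (1 - P.u a)⁻¹
noncomputable def eta : ℝ := (1 - P.θ) / ((P.L : ℝ) + P.T)
noncomputable def low (c : ℕ) : ℝ := P.θ + P.eta * (c + 1)
/-- the index of the price in the layer with level sum `s` -/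
def thr (s : ℕ) : ℕ := min (s % P.T) P.A

theorem T_pos : 0 < P.T := lt_of_le_of_lt (Nat.zero_le _) P.hT
theorem L_pos : 0 < P.L := Nat.mul_pos P.T_pos P.hN
theorem thr_le (s : ℕ) : P.thr s ≤ P.A := min_le_right _ _

theorem den_gt {a : ℕ} (ha : a ≤ P.A) : (P.U : ℝ) < (P.T : ℝ) - a := by
  have h : P.U + a + 1 ≤ P.T := by have := P.hT; unfold A at ha; omega
  have : (P.U : ℝ) + a + 1 ≤ P.T := by exact_mod_cast h
  linarith

theorem U_pos : (0 : ℝ) < P.U := by exact_mod_cast P.hU

theorem u_pos {a : ℕ} (ha : a ≤ P.A) : 0 < P.u a :=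
  div_pos P.U_pos (P.U_pos.trans (P.den_gt ha))

theorem u_lt_one {a : ℕ} (ha : a ≤ P.A) : P.u a < 1 :=
  (div_lt_one (P.U_pos.trans (P.den_gt ha))).2 (P.den_gt ha)

theorem u_lt {a b : ℕ} (hb : b ≤ P.A) (h : a < b) : P.u a < P.u b := by
  have : (a : ℝ) < b := by exact_mod_cast h
  exact div_lt_div_of_pos_left P.U_pos (P.U_pos.trans (P.den_gt hb)) (by linarith)

theorem one_lt_t {a : ℕ} (ha : a ≤ P.A) : 1 < P.t a := by
  have h1 := P.u_lt_one ha
  have h2 := P.u_pos ha
  exact (one_lt_inv₀ (by linarith)).2 (by linarith)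

theorem t_lt {a b : ℕ} (hb : b ≤ P.A) (h : a < b) : P.t a < P.t b := by
  have h1 := P.u_lt_one hb
  have h2 := P.u_lt hb h
  exact inv_strictAnti₀ (by linarith) (by linarith)

theorem row {a : ℕ} (ha : a < P.A) : ((P.T : ℝ) - a - 1) * (P.u (a + 1) - P.u a) = P.u a := by
  have h1 := P.den_gt ha.le
  have h2 := P.den_gt (show a + 1 ≤ P.A from ha)
  have h3 := P.U_pos
  simp only [u]
  push_cast at h2 ⊢
  have h4 : (P.T : ℝ) - a ≠ 0 := by linarith
  have h5 : (P.T : ℝ) - (a + 1) ≠ 0 := by linarith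
  field_simp
  ring

theorem eta_pos : 0 < P.eta := by
  have h1 : (0 : ℝ) < P.T := by exact_mod_cast P.T_pos
  have h2 : 0 < 1 - P.θ := by linarith [P.h1]
  unfold eta
  positivity

theorem low_gt (c : ℕ) : P.θ < P.low c := by
  have := P.eta_pos
  have : 0 < P.eta * (c + 1) := by positivity
  unfold low; linarith

theorem low_pos (c : ℕ) : 0 < P.low c := P.h0.trans (P.low_gt c)

theorem low_le {c : ℕ} (h : c < P.L + P.T) : P.low c ≤ 1 := by
  have h1 : (0 : ℝ) < P.T := by exact_mod_cast P.T_pos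
  have hc : (c : ℝ) + 1 ≤ P.L + P.T := by exact_mod_cast h
  have := mul_le_mul_of_nonneg_left hc P.eta_pos.le
  have e : P.eta * ((P.L : ℝ) + P.T) = 1 - P.θ := div_mul_cancel₀ _ (by positivity)
  unfold low; linarith

theorem low_lt {c c' : ℕ} (h : c < c') : P.low c < P.low c' := by
  have hc : (c : ℝ) + 1 < c' + 1 := by exact_mod_cast Nat.succ_lt_succ h
  have := mul_lt_mul_of_pos_left hc P.eta_pos
  unfold low; linarith

end Par

/-- profiles with all levels below `B` -/
def box (n B : ℕ) : Finset (Fin n → ℕ) := Fintype.piFinset fun _ => range B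

theorem mem_box {n B : ℕ} {l : Fin n → ℕ} : l ∈ box n B ↔ ∀ i, l i < B := by simp [box]

theorem card_box (n B : ℕ) : (box n B).card = B ^ n := by simp [box]

theorem box_mono {n B B' : ℕ} (h : B ≤ B') : box n B ⊆ box n B' := fun _ hl =>
  mem_box.2 fun i => (mem_box.1 hl i).trans_le h

theorem sum_box_insert {n B : ℕ} (i : Fin (n + 1)) (g : (Fin (n + 1) → ℕ) → ℝ) :
    ∑ l ∈ box (n + 1) B, g l = ∑ l ∈ box n B, ∑ c ∈ range B, g (Fin.insertNth i c l) := by
  rw [← sum_product']
  refine sum_nbij' (fun l => (Fin.removeNth i l, l i)) (fun p => Fin.insertNth i p.2 p.1)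
    ?_ ?_ ?_ ?_ ?_
  · intro l hl
    have hl := mem_box.1 hl
    exact mem_product.2 ⟨mem_box.2 fun j => hl _, mem_range.2 (hl i)⟩
  · intro p hp
    have hp := mem_product.1 hp
    refine mem_box.2 fun j => ?_
    refine Fin.succAboveCases i ?_ (fun j => ?_) j
    · simpa using hp.2
    · simpa using mem_box.1 hp.1 j
  · intro l _; simp
  · intro p _; simp
  · intro l _; simp

theorem sum_mod (f : ℕ → ℝ) (T s : ℕ) :
    ∑ c ∈ range T, f ((c + s) % T) = ∑ c ∈ range T, f (c % T) := by
  induction s with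
  | zero => simp
  | succ s ih =>
    rw [← ih]
    have h1 := sum_range_succ (fun c => f ((c + s) % T)) T
    have h2 := sum_range_succ' (fun c => f ((c + s) % T)) T
    simp only [zero_add, Nat.add_mod_left] at h1 h2
    have h3 : ∑ c ∈ range T, f ((c + (s + 1)) % T) = ∑ c ∈ range T, f ((c + 1 + s) % T) :=
      sum_congr rfl fun c _ => by rw [show c + (s + 1) = c + 1 + s by ring]
    linarith

theorem sum_mod_mul (f : ℕ → ℝ) (T N s : ℕ) :
    ∑ c ∈ range (T * N), f ((c + s) % T) = N * ∑ c ∈ range T, f c := by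
  induction N with
  | zero => simp
  | succ N ih =>
    rw [Nat.mul_succ, sum_range_add, ih]
    have : ∑ c ∈ range T, f ((T * N + c + s) % T) = ∑ c ∈ range T, f c := by
      rw [sum_congr rfl (g := fun c => f ((c + (T * N + s)) % T))
        (fun c _ => by rw [show T * N + c + s = c + (T * N + s) by ring]), sum_mod]
      exact sum_congr rfl fun c hc => by rw [Nat.mod_eq_of_lt (mem_range.1 hc)]
    rw [this]; push_cast; ring

theorem sum_box_mod (f : ℕ → ℝ) (n T N : ℕ) :
    ∑ l ∈ box (n + 1) (T * N), f ((∑ i, l i) % T) =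
      ((T * N : ℕ) : ℝ) ^ n * (N * ∑ c ∈ range T, f c) := by
  rw [sum_box_insert 0, sum_congr rfl (g := fun _ => N * ∑ c ∈ range T, f c), sum_const, card_box,
    nsmul_eq_mul, Nat.cast_pow]
  intro l _
  rw [← sum_mod_mul f T N (∑ i, l i)]
  refine sum_congr rfl fun c _ => ?_
  rw [Fin.sum_univ_succAbove _ 0]
  simp

namespace Par

variable (P : Par)

/-- bidder `i` has the value `y`, the others have the levels `l` -/
noncomputable def q (i : Fin (P.m + 2)) (y : ℝ) (l : Fin (P.m + 1) → ℕ) : Fin (P.m + 2) → ℝ :=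
  Fin.insertNth i y fun j => P.low (l j)

theorem q_self (i : Fin (P.m + 2)) (y : ℝ) (l : Fin (P.m + 1) → ℕ) : P.q i y l i = y := by
  simp [q]

theorem q_succAbove (i : Fin (P.m + 2)) (y : ℝ) (l : Fin (P.m + 1) → ℕ) (j : Fin (P.m + 1)) :
    P.q i y l (i.succAbove j) = P.low (l j) := by simp [q]

theorem q_gt (i : Fin (P.m + 2)) {y : ℝ} (hy : P.θ < y) (l : Fin (P.m + 1) → ℕ)
    (j : Fin (P.m + 2)) : P.θ < P.q i y l j := by
  refine Fin.succAboveCases i ?_ (fun j => ?_) j
  · rwa [q_self]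
  · rw [q_succAbove]; exact P.low_gt _

theorem t_gt {a : ℕ} (ha : a ≤ P.A) : P.θ < P.t a := P.h1.trans (P.one_lt_t ha)

theorem q_pos (i : Fin (P.m + 2)) {a : ℕ} (ha : a ≤ P.A) (l : Fin (P.m + 1) → ℕ) :
    ∀ j, 0 < P.q i (P.t a) l j := fun j => P.h0.trans (P.q_gt i (P.t_gt ha) l j)

theorem q_update (i : Fin (P.m + 2)) (y y' : ℝ) (l : Fin (P.m + 1) → ℕ) :
    Function.update (P.q i y l) i y' = P.q i y' l := by
  funext j
  refine Fin.succAboveCases i ?_ (fun j => ?_) j
  · simp [q_self]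
  · rw [Function.update_of_ne (Fin.succAbove_ne i j), q_succAbove, q_succAbove]

theorem q_update' (i : Fin (P.m + 2)) (y : ℝ) (l : Fin (P.m + 1) → ℕ) (j : Fin (P.m + 1)) (c : ℕ) :
    Function.update (P.q i y l) (i.succAbove j) (P.low c) = P.q i y (Function.update l j c) := by
  funext j'
  refine Fin.succAboveCases i ?_ (fun j' => ?_) j'
  · rw [Function.update_of_ne (Fin.succAbove_ne i j).symm, q_self, q_self]
  · rcases eq_or_ne j' j with rfl | h
    · simp [q_succAbove]
    · rw [Function.update_of_ne (fun h' => h (Fin.succAbove_right_injective h')), q_succAbove,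
        q_succAbove, Function.update_of_ne h]

theorem low_insert (i : Fin (P.m + 2)) (c : ℕ) (l : Fin (P.m + 1) → ℕ) :
    (fun j => P.low (Fin.insertNth (α := fun _ => ℕ) i c l j)) = P.q i (P.low c) l := by
  funext j
  refine Fin.succAboveCases i ?_ (fun j => ?_) j
  · simp [q_self]
  · simp [q_succAbove]

/-- total over the points where all bidders are low -/
noncomputable def T0 (f : (Fin (P.m + 2) → ℝ) → ℝ) : ℝ :=
  ∑ l ∈ box (P.m + 2) P.L, P.u 0 / P.L * f fun j => P.low (l j)

/-- total over the points where `i` is high and below the price -/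
noncomputable def TB (i : Fin (P.m + 2)) (f : (Fin (P.m + 2) → ℝ) → ℝ) : ℝ :=
  ∑ l ∈ box (P.m + 1) P.L, ∑ a ∈ range (P.thr (∑ j, l j)),
    (P.u (a + 1) - P.u a) * f (P.q i (P.t a) l)

/-- total over the points where `i` is at the price -/
noncomputable def TG (i : Fin (P.m + 2)) (w : ℕ → ℝ) (f : (Fin (P.m + 2) → ℝ) → ℝ) : ℝ :=
  ∑ l ∈ box (P.m + 1) (P.L + P.T), w (P.thr (∑ j, l j)) * f (P.q i (P.t (P.thr (∑ j, l j))) l)

noncomputable def Tot (f : (Fin (P.m + 2) → ℝ) → ℝ) : ℝ :=
  P.T0 f + ∑ i, (P.TB i f + P.TG i (fun a => 1 - P.u a) f)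

theorem own_bound (M : Mechanism (Fin (P.m + 2))) (i : Fin (P.m + 2)) :
    P.T0 (fun v => M.p v i) + P.TB i (fun v => M.p v i) +
      P.TG i (fun a => 1 - P.u a) (fun v => M.p v i) ≤ P.TG i (fun _ => 1) fun v => M.x v i := by
  have hL : (0 : ℝ) < P.L := by exact_mod_cast P.L_pos
  let W : (Fin (P.m + 1) → ℕ) → ℕ → ℝ := fun l a =>
    (1 - P.u a) * (M.x (P.q i (P.t a) l) i * P.t a - M.p (P.q i (P.t a) l) i)
  have hW : ∀ l a, a ≤ P.A → 0 ≤ W l a := fun l a ha => by
    have := M.ir _ (P.q_pos i ha l) i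
    rw [q_self] at this
    exact mul_nonneg (by linarith [P.u_lt_one ha]) this
  have h0 : P.T0 (fun v => M.p v i) ≤ ∑ l ∈ box (P.m + 1) P.L, W l 0 := by
    rw [T0, sum_box_insert i]
    refine sum_le_sum fun l _ => ?_
    calc ∑ c ∈ range P.L, P.u 0 / P.L *
          M.p (fun j => P.low (Fin.insertNth (α := fun _ => ℕ) i c l j)) i
        ≤ ∑ _c ∈ range P.L, W l 0 / P.L := by
          refine sum_le_sum fun c hc => ?_
          rw [low_insert, div_mul_eq_mul_div]
          refine div_le_div_of_nonneg_right ?_ hL.le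
          have := low_pay M _ (P.q_pos i (Nat.zero_le _) l) i (P.u_pos (Nat.zero_le _)).le
            (P.u_lt_one (Nat.zero_le _)) (P.low_pos c)
            (P.low_le (Nat.lt_add_right _ (mem_range.1 hc)))
          simp only [q_update] at this
          exact this
      _ = W l 0 := by rw [sum_const, card_range, nsmul_eq_mul, mul_div_cancel₀ _ hL.ne']
  have h1 : P.T0 (fun v => M.p v i) + P.TB i (fun v => M.p v i) ≤
      ∑ l ∈ box (P.m + 1) (P.L + P.T), W l (P.thr (∑ j, l j)) := by
    refine le_trans ?_ (sum_le_sum_of_subset_of_nonneg (box_mono (Nat.le_add_right P.L P.T))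
      fun l _ _ => hW l _ (P.thr_le _))
    refine (add_le_add h0 le_rfl).trans ?_
    rw [TB, ← sum_add_distrib]
    refine sum_le_sum fun l _ => ?_
    have := column_bound' M _ (P.q_pos i (Nat.zero_le _) l) i P.u (P.thr (∑ j, l j))
      fun b hb => P.u_lt_one (hb.trans (P.thr_le _))
    simp only [q_update] at this
    exact this
  refine (add_le_add h1 le_rfl).trans (le_of_eq ?_)
  rw [TG, TG, ← sum_add_distrib]
  refine sum_congr rfl fun l _ => ?_
  have hu : 1 - P.u (P.thr (∑ j, l j)) ≠ 0 := by linarith [P.u_lt_one (P.thr_le (∑ j, l j))]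
  simp only [W, t]
  field_simp
  ring

theorem other_bound (M : Mechanism (Fin (P.m + 2))) (i : Fin (P.m + 2)) (j : Fin (P.m + 1)) :
    P.TB i (fun v => M.p v (i.succAbove j)) +
      P.TG i (fun a => 1 - P.u a) (fun v => M.p v (i.succAbove j)) ≤
      P.TG i (fun _ => 1) fun v => M.x v (i.succAbove j) := by
  classical
  let X : (Fin (P.m + 1) → ℕ) → ℝ := fun l =>
    M.x (P.q i (P.t (P.thr (∑ j, l j))) l) (i.succAbove j)
  have hX : ∀ l, 0 ≤ X l := fun l => M.x_nonneg _ (P.q_pos i (P.thr_le _) l) _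
  have hpx : ∀ a ≤ P.A, ∀ l ∈ box (P.m + 1) (P.L + P.T),
      M.p (P.q i (P.t a) l) (i.succAbove j) ≤ M.x (P.q i (P.t a) l) (i.succAbove j) := by
    intro a ha l hl
    have e1 := M.p_le (P.q_pos i ha l) (i.succAbove j)
    have e2 := M.x_nonneg _ (P.q_pos i ha l) (i.succAbove j)
    have e3 := P.low_le (mem_box.1 hl j)
    rw [q_succAbove] at e1
    nlinarith
  let d : ℕ → ℝ := fun a => P.u (a + 1) - P.u a
  have hd : ∀ a < P.A, 0 ≤ d a := fun a ha => by
    have := P.u_lt (show a + 1 ≤ P.A from ha) (Nat.lt_succ_self a)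
    simp only [d]; linarith
  -- the points below the price, as pairs
  let S : Finset ((Fin (P.m + 1) → ℕ) × ℕ) :=
    (box (P.m + 1) P.L ×ˢ range P.A).filter fun p => p.2 < P.thr (∑ j, p.1 j)
  let S' : Finset ((Fin (P.m + 1) → ℕ) × ℕ) :=
    (box (P.m + 1) (P.L + P.T) ×ˢ range P.T).filter fun p =>
      P.thr (∑ j, p.1 j) < P.A ∧ P.thr (∑ j, p.1 j) < p.2
  let φ : (Fin (P.m + 1) → ℕ) × ℕ → (Fin (P.m + 1) → ℕ) × ℕ := fun p =>
    (Function.update p.1 j (p.1 j + (P.T - (∑ j, p.1 j) % P.T + p.2)), (∑ j, p.1 j) % P.T)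
  have hsum : ∀ (l : Fin (P.m + 1) → ℕ) (c : ℕ),
      ∑ j', Function.update l j (l j + c) j' = ∑ j', l j' + c := by
    intro l c
    rw [Finset.sum_update_of_mem (mem_univ j), ← Finset.add_sum_erase _ _ (mem_univ j),
      Finset.sdiff_singleton_eq_erase]
    ring
  have hthr : ∀ p ∈ S, (∑ j, (φ p).1 j) % P.T = p.2 ∧ P.thr (∑ j, (φ p).1 j) = p.2 ∧
      p.2 < (∑ j, p.1 j) % P.T ∧ p.2 < P.A := by
    intro p hp
    have hp := (mem_filter.1 hp).2
    have h1 : p.2 < (∑ j, p.1 j) % P.T := hp.trans_le (min_le_left _ _)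
    have h2 : p.2 < P.A := hp.trans_le (min_le_right _ _)
    have h3 := Nat.mod_lt (∑ j, p.1 j) P.T_pos
    have h4 : (∑ j, (φ p).1 j) % P.T = p.2 := by
      simp only [φ, hsum]
      have h5 := Nat.div_add_mod (∑ j, p.1 j) P.T
      rw [show ∑ j, p.1 j + (P.T - (∑ j, p.1 j) % P.T + p.2) =
        p.2 + P.T * ((∑ j, p.1 j) / P.T + 1) by rw [mul_add]; omega, Nat.add_mul_mod_self_left]
      exact Nat.mod_eq_of_lt (by omega)
    exact ⟨h4, by rw [thr, h4]; exact min_eq_left h2.le, h1, h2⟩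
  have hB : P.TB i (fun v => M.p v (i.succAbove j)) ≤
      ∑ p ∈ S', d (P.thr (∑ j, p.1 j)) * X p.1 := by
    calc P.TB i (fun v => M.p v (i.succAbove j))
        = ∑ p ∈ S, d p.2 * M.p (P.q i (P.t p.2) p.1) (i.succAbove j) := by
          rw [TB, sum_filter, sum_product]
          refine sum_congr rfl fun l _ => ?_
          rw [← sum_filter]
          refine sum_congr ?_ fun _ _ => rfl
          ext a
          have := P.thr_le (∑ j, l j)
          simp only [mem_range, mem_filter]
          omega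
      _ ≤ ∑ p ∈ S, d (P.thr (∑ j, (φ p).1 j)) * X (φ p).1 := by
          refine sum_le_sum fun p hp => ?_
          obtain ⟨-, h2, h3, h4⟩ := hthr p hp
          have hl := (mem_product.1 (mem_filter.1 hp).1).1
          simp only [X, h2]
          refine mul_le_mul_of_nonneg_left
            ((hpx _ h4.le _ (box_mono (Nat.le_add_right _ _) hl)).trans ?_) (hd _ h4)
          simp only [φ]
          rw [← q_update']
          refine M.x_mono (P.q_pos i h4.le _) _ ?_
          rw [q_succAbove]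
          have := Nat.mod_lt (∑ j, p.1 j) P.T_pos
          exact P.low_lt (by omega)
      _ = ∑ p ∈ S.image φ, d (P.thr (∑ j, p.1 j)) * X p.1 := by
          rw [sum_image]
          intro p hp p' hp' h
          have e2 : p.2 = p'.2 := by rw [← (hthr p hp).1, ← (hthr p' hp').1, h]
          have e3 : (∑ j, p.1 j) % P.T = (∑ j, p'.1 j) % P.T := congrArg Prod.snd h
          have e1 := congrArg Prod.fst h
          simp only [φ] at e1
          refine Prod.ext (funext fun j' => ?_) e2
          rcases eq_or_ne j' j with rfl | hj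
          · have := congrFun e1 j'
            simp only [Function.update_self] at this
            rw [e2, e3] at this
            omega
          · simpa [Function.update_of_ne hj] using congrFun e1 j'
      _ ≤ _ := by
          refine sum_le_sum_of_subset_of_nonneg ?_ fun p hp _ =>
            mul_nonneg (hd _ (mem_filter.1 hp).2.1) (hX _)
          intro p0 hp0
          obtain ⟨p, hp, rfl⟩ := mem_image.1 hp0
          obtain ⟨-, h2, h3, h4⟩ := hthr p hp
          have hl := mem_box.1 (mem_product.1 (mem_filter.1 hp).1).1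
          have h5 := Nat.mod_lt (∑ j, p.1 j) P.T_pos
          refine mem_filter.2 ⟨mem_product.2 ⟨mem_box.2 fun j' => ?_, mem_range.2 h5⟩,
            by rw [h2]; exact ⟨h4, h3⟩⟩
          have := hl j'
          rcases eq_or_ne j' j with rfl | hj
          · simp only [φ, Function.update_self]; omega
          · simp only [φ, Function.update_of_ne hj]; omega
  have hB' : ∑ p ∈ S', d (P.thr (∑ j, p.1 j)) * X p.1 ≤
      ∑ l ∈ box (P.m + 1) (P.L + P.T), P.u (P.thr (∑ j, l j)) * X l := by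
    rw [sum_filter, sum_product]
    refine sum_le_sum fun l _ => ?_
    dsimp only
    rw [← sum_filter, sum_const, nsmul_eq_mul, ← mul_assoc]
    refine mul_le_mul_of_nonneg_right ?_ (hX l)
    by_cases h : P.thr (∑ j, l j) < P.A
    · have : (range P.T).filter (fun c => P.thr (∑ j, l j) < P.A ∧ P.thr (∑ j, l j) < c) =
          Ico (P.thr (∑ j, l j) + 1) P.T := by
        ext c; simp only [mem_filter, mem_range, mem_Ico]; omega
      have hA : P.A < P.T := by have := P.T_pos; unfold A; omega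
      rw [this, Nat.card_Ico, Nat.cast_sub (by omega), ← P.row h]
      push_cast
      exact le_of_eq (by simp only [d]; ring)
    · rw [filter_eq_empty_iff.2 fun c _ hc => h hc.1]
      simpa using (P.u_pos (P.thr_le _)).le
  refine (add_le_add (hB.trans hB') le_rfl).trans ?_
  rw [TG, TG, ← sum_add_distrib]
  refine sum_le_sum fun l hl => ?_
  have h1 := hpx _ (P.thr_le (∑ j, l j)) l hl
  have h2 := P.u_lt_one (P.thr_le (∑ j, l j))
  simp only [X]
  nlinarith

noncomputable def RR : ℝ := (P.m + 2) * ((P.L : ℝ) + P.T) ^ (P.m + 1)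

theorem upper_bound (M : Mechanism (Fin (P.m + 2))) : P.Tot (fun v => ∑ j, M.p v j) ≤ P.RR := by
  have e0 : P.T0 (fun v => ∑ j, M.p v j) = ∑ i, P.T0 fun v => M.p v i := by
    simp only [T0, mul_sum]; exact sum_comm
  have eB : ∀ i, P.TB i (fun v => ∑ j, M.p v j) = ∑ j, P.TB i fun v => M.p v j := fun i => by
    simp only [TB, mul_sum]
    exact (sum_congr rfl fun _ _ => sum_comm).trans sum_comm
  have eG : ∀ i w (f : (Fin (P.m + 2) → ℝ) → Fin (P.m + 2) → ℝ),
      P.TG i w (fun v => ∑ j, f v j) = ∑ j, P.TG i w fun v => f v j := fun i w f => by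
    simp only [TG, mul_sum]; exact sum_comm
  rw [Tot, e0, ← sum_add_distrib]
  calc ∑ i, (P.T0 (fun v => M.p v i) + (P.TB i (fun v => ∑ j, M.p v j) +
        P.TG i (fun a => 1 - P.u a) fun v => ∑ j, M.p v j))
      ≤ ∑ i, P.TG i (fun _ => 1) fun v => ∑ j, M.x v j := by
        refine sum_le_sum fun i _ => ?_
        rw [eB, eG, eG, Fin.sum_univ_succAbove _ i, Fin.sum_univ_succAbove _ i,
          Fin.sum_univ_succAbove _ i]
        have h1 := P.own_bound M i
        have h2 := sum_le_sum fun j (_ : j ∈ univ) => P.other_bound M i j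
        rw [sum_add_distrib] at h2
        linarith
    _ ≤ ∑ _i : Fin (P.m + 2), ((P.L : ℝ) + P.T) ^ (P.m + 1) := by
        refine sum_le_sum fun i _ => ?_
        calc P.TG i (fun _ => 1) (fun v => ∑ j, M.x v j)
            ≤ ∑ _l ∈ box (P.m + 1) (P.L + P.T), (1 : ℝ) :=
              sum_le_sum fun l _ => by
                rw [one_mul]; exact M.x_sum _ (P.q_pos i (P.thr_le _) l)
          _ = _ := by simp [card_box]
    _ = P.RR := by simp [RR]

/-- mass of the points below the prices -/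
noncomputable def MM : ℝ := P.T0 (fun _ => 1) + ∑ i, P.TB i fun _ => 1

theorem Tot_eq (f : (Fin (P.m + 2) → ℝ) → ℝ) (c : ℝ)
    (h0 : ∀ l ∈ box (P.m + 2) P.L, f (fun j => P.low (l j)) = c)
    (hB : ∀ i, ∀ l ∈ box (P.m + 1) P.L, ∀ a < P.thr (∑ j, l j), f (P.q i (P.t a) l) = c)
    (hG : ∀ i, ∀ l ∈ box (P.m + 1) (P.L + P.T),
      f (P.q i (P.t (P.thr (∑ j, l j))) l) = P.t (P.thr (∑ j, l j))) :
    P.Tot f = P.RR + c * P.MM := by
  have e0 : P.T0 f = c * P.T0 fun _ => 1 := by
    simp only [T0, mul_sum]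
    exact sum_congr rfl fun l hl => by rw [h0 l hl]; ring
  have eB : ∀ i, P.TB i f = c * P.TB i fun _ => 1 := fun i => by
    simp only [TB, mul_sum]
    exact sum_congr rfl fun l hl => sum_congr rfl fun a ha => by
      rw [hB i l hl a (mem_range.1 ha)]; ring
  have eG : ∀ i, P.TG i (fun a => 1 - P.u a) f = ((P.L : ℝ) + P.T) ^ (P.m + 1) := fun i => by
    rw [TG, sum_congr rfl (g := fun _ => 1)]
    · simp [card_box]
    · intro l hl
      have hu : 1 - P.u (P.thr (∑ j, l j)) ≠ 0 := by linarith [P.u_lt_one (P.thr_le (∑ j, l j))]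
      rw [hG i l hl, t, mul_inv_cancel₀ hu]
  simp only [Tot, e0, eB, eG, sum_add_distrib, ← mul_sum, RR, MM, sum_const, card_univ,
    Fintype.card_fin, nsmul_eq_mul]
  push_cast
  ring

theorem MM_le_Tot : P.MM ≤ P.Tot fun _ => 1 := by
  rw [MM, Tot, sum_add_distrib]
  have : 0 ≤ ∑ i, P.TG i (fun a => 1 - P.u a) fun _ => 1 :=
    sum_nonneg fun i _ => sum_nonneg fun l _ => by
      have := P.u_lt_one (P.thr_le (∑ j, l j)); simp only; linarith
  linarith

theorem sum_u_ge {a : ℕ} (ha : a ≤ P.A) :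
    P.U * Real.log (((P.T : ℝ) + 1) / ((P.T : ℝ) + 1 - a)) ≤ ∑ b ∈ range a, P.u b := by
  induction a with
  | zero =>
    have : (P.T : ℝ) + 1 ≠ 0 := by positivity
    simp [this]
  | succ a ih =>
    have h1 := P.den_gt ha
    have h2 := P.U_pos
    push_cast at h1 ⊢
    have h3 : 0 < (P.T : ℝ) - a := by linarith
    have e : Real.log (((P.T : ℝ) + 1) / ((P.T : ℝ) + 1 - (a + 1))) =
        Real.log (((P.T : ℝ) + 1) / ((P.T : ℝ) + 1 - a)) +
          Real.log (((P.T : ℝ) + 1 - a) / ((P.T : ℝ) - a)) := by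
      have h4 : (P.T : ℝ) + 1 - a ≠ 0 := by linarith
      rw [← Real.log_mul (by positivity) (by positivity)]
      congr 1
      rw [show (P.T : ℝ) + 1 - (a + 1) = P.T - a by ring]
      field_simp
    have h5 := Real.log_le_sub_one_of_pos
      (show 0 < ((P.T : ℝ) + 1 - a) / ((P.T : ℝ) - a) from div_pos (by linarith) h3)
    have h6 : ((P.T : ℝ) + 1 - a) / ((P.T : ℝ) - a) - 1 = 1 / ((P.T : ℝ) - a) := by
      field_simp; ring
    rw [sum_range_succ, e, mul_add]
    refine add_le_add (ih (by omega)) ?_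
    rw [u, div_eq_mul_one_div (P.U : ℝ), ← h6]
    exact mul_le_mul_of_nonneg_left h5 h2.le

theorem le_MM : (P.L : ℝ) ^ (P.m + 1) * (P.U / P.T) *
    (1 + (P.m + 2) * Real.log (((P.T : ℝ) + 1) / (P.U + 2))) ≤ P.MM := by
  have hL : (0 : ℝ) < P.L := by exact_mod_cast P.L_pos
  have hT : (0 : ℝ) < P.T := by exact_mod_cast P.T_pos
  have hN : (0 : ℝ) < P.N := by exact_mod_cast P.hN
  have hA : P.A + (P.U + 1) = P.T := by have := P.hT; unfold A; omega
  have hA' : (P.A : ℝ) + (P.U + 1) = P.T := by exact_mod_cast hA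
  have e0 : P.T0 (fun _ => 1) = (P.L : ℝ) ^ (P.m + 1) * (P.U / P.T) := by
    simp only [T0, mul_one, sum_const, card_box, nsmul_eq_mul, u, Nat.cast_zero, sub_zero]
    push_cast
    rw [pow_succ]
    field_simp
  have eB : ∀ i, (P.L : ℝ) ^ (P.m + 1) * (P.U / P.T) *
      Real.log (((P.T : ℝ) + 1) / (P.U + 2)) ≤ P.TB i fun _ => 1 := fun i => by
    simp only [TB, mul_one, sum_range_sub]
    have := sum_box_mod (fun s => P.u (min s P.A) - P.u 0) P.m P.T P.N
    simp only [thr, L]
    rw [this]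
    have h1 : ∑ c ∈ range P.T, (P.u (min c P.A) - P.u 0) = ∑ b ∈ range P.A, P.u b := by
      rw [sum_sub_distrib, sum_const, card_range, nsmul_eq_mul]
      have f1 : ∑ b ∈ range P.A, P.u (min b P.A) = ∑ b ∈ range P.A, P.u b :=
        sum_congr rfl fun b hb => by rw [min_eq_left (mem_range.1 hb).le]
      have f2 : ∑ b ∈ range (P.U + 1), P.u (min (P.A + b) P.A) = ((P.U + 1 : ℕ) : ℝ) * P.u P.A := by
        rw [sum_congr rfl (g := fun _ => P.u P.A)
          (fun b _ => by rw [min_eq_right (Nat.le_add_right _ _)]), sum_const, card_range,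
          nsmul_eq_mul]
      have f3 : ∑ b ∈ range P.T, P.u (min b P.A) =
          ∑ b ∈ range (P.A + (P.U + 1)), P.u (min b P.A) := by rw [hA]
      rw [f3, sum_range_add, f1, f2]
      simp only [u, Nat.cast_zero, sub_zero]
      rw [show (P.T : ℝ) - P.A = P.U + 1 by linarith]
      push_cast
      field_simp
      ring
    have h2 := P.sum_u_ge le_rfl
    rw [show (P.T : ℝ) + 1 - P.A = P.U + 2 by linarith] at h2
    rw [h1]
    calc ((P.T * P.N : ℕ) : ℝ) ^ (P.m + 1) * (P.U / P.T) * Real.log (((P.T : ℝ) + 1) / (P.U + 2))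
        = ((P.T * P.N : ℕ) : ℝ) ^ P.m * (P.N * (P.U * Real.log (((P.T : ℝ) + 1) / (P.U + 2)))) := by
          rw [pow_succ]; push_cast; field_simp
      _ ≤ _ := by gcongr
  have := sum_le_sum fun i (_ : i ∈ univ) => eB i
  rw [sum_const, card_univ, Fintype.card_fin, nsmul_eq_mul] at this
  rw [MM, e0]
  push_cast at this
  linarith

end Par

end Pool.Agent.Lib.MP_0f9109_lc.Sym
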