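import Pool.Agent.Lib.MP_0f9109_lc.Main
import Pool.Agent.Lib.MP_0f9109_lc.Sym

/-!
The symmetric distribution, its lookahead revenue and its optimal revenue.
-/

namespace Pool.Agent.Lib.MP_0f9109_lc.Sym

open Finset Pool.Agent.Lib.MP_0f9109_lc

section
variable {ι : Type} [Fintype ι] [DecidableEq ι]

open Classical in
/-- Every bidder with an offer is offered a price independent of her bid; at most one accepts. -/
noncomputable def multi (off : ι → (ι → ℝ) → Prop) (π : ι → (ι → ℝ) → ℝ)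
    (hoff : ∀ i v b, off i (Function.update v i b) ↔ off i v)
    (hπ : ∀ i v b, π i (Function.update v i b) = π i v)
    (hone : ∀ v i j, off i v ∧ π i v ≤ v i → off j v ∧ π j v ≤ v j → i = j) : Mechanism ι where
  x v i := if off i v ∧ π i v ≤ v i then 1 else 0
  p v i := if off i v ∧ π i v ≤ v i then π i v else 0
  x_nonneg v _ i := by split_ifs <;> norm_num
  x_sum v _ := by
    by_cases h : ∃ i, off i v ∧ π i v ≤ v i
    · obtain ⟨i, hi⟩ := h
      rw [sum_eq_single i (fun j _ hj => if_neg fun h => hj (hone v j i h hi)) (by simp), if_pos hi]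
    · rw [sum_eq_zero fun i _ => if_neg fun hi => h ⟨i, hi⟩]
      norm_num
  truthful v _ i b _ := by
    simp only [hoff, hπ, Function.update_self]
    split_ifs with h1 h2 h2
    · linarith
    · have : ¬ π i v ≤ v i := fun h3 => h2 ⟨h1.1, h3⟩
      linarith
    · linarith [h2.2]
    · linarith
  ir v _ i := by
    split_ifs with h1
    · linarith [h1.2]
    · linarith

theorem multi_none {off : ι → (ι → ℝ) → Prop} {π : ι → (ι → ℝ) → ℝ} {hoff hπ hone} {v : ι → ℝ}
    (h : ∀ i, ¬ (off i v ∧ π i v ≤ v i)) : ∑ i, (multi off π hoff hπ hone).p v i = 0 :=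
  sum_eq_zero fun i _ => if_neg (h i)

theorem multi_win {off : ι → (ι → ℝ) → Prop} {π : ι → (ι → ℝ) → ℝ} {hoff hπ hone} {v : ι → ℝ}
    {i : ι} (h : off i v ∧ π i v ≤ v i) : ∑ i, (multi off π hoff hπ hone).p v i = π i v := by
  exact (sum_eq_single (f := fun i => (multi off π hoff hπ hone).p v i) i
    (fun j _ hj => if_neg fun h' => hj (hone v j i h' h)) (by simp)).trans (if_pos h)

end

namespace Par

variable (P : Par)

/-- the price offered to bidder `i` -/
noncomputable def price (i : Fin (P.m + 2)) (v : Fin (P.m + 2) → ℝ) : ℝ :=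
  P.t (P.thr ⌊(∑ j, v (i.succAbove j) - (P.m + 1) * (P.θ + P.eta)) / P.eta⌋₊)

/-- all other bidders are low -/
def off (i : Fin (P.m + 2)) (v : Fin (P.m + 2) → ℝ) : Prop := ∀ j, v (i.succAbove j) ≤ 1

theorem price_update (i : Fin (P.m + 2)) (v : Fin (P.m + 2) → ℝ) (b : ℝ) :
    P.price i (Function.update v i b) = P.price i v := by
  simp only [price, Function.update_of_ne (Fin.succAbove_ne i _)]

theorem off_update (i : Fin (P.m + 2)) (v : Fin (P.m + 2) → ℝ) (b : ℝ) :
    P.off i (Function.update v i b) ↔ P.off i v := by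
  simp only [off, Function.update_of_ne (Fin.succAbove_ne i _)]

theorem one_lt_price (i : Fin (P.m + 2)) (v : Fin (P.m + 2) → ℝ) : 1 < P.price i v :=
  P.one_lt_t (P.thr_le _)

theorem win_one (v : Fin (P.m + 2) → ℝ) (i j : Fin (P.m + 2))
    (hi : P.off i v ∧ P.price i v ≤ v i) (hj : P.off j v ∧ P.price j v ≤ v j) : i = j := by
  by_contra h
  obtain ⟨c, rfl⟩ := Fin.exists_succAbove_eq h
  have := hj.1 c
  linarith [P.one_lt_price (j.succAbove c) v, hi.2]

theorem price_q (i : Fin (P.m + 2)) (y : ℝ) (l : Fin (P.m + 1) → ℕ) :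
    P.price i (P.q i y l) = P.t (P.thr (∑ j, l j)) := by
  have h := P.eta_pos
  have : (∑ j, P.q i y l (i.succAbove j) - (P.m + 1) * (P.θ + P.eta)) / P.eta =
      ((∑ j, l j : ℕ) : ℝ) := by
    simp only [q_succAbove, low, sum_add_distrib, ← mul_sum, sum_const, card_univ,
      Fintype.card_fin, nsmul_eq_mul]
    push_cast
    field_simp
    ring
  rw [price, this, Nat.floor_natCast]

theorem nowin0 {l : Fin (P.m + 2) → ℕ} (hl : l ∈ box (P.m + 2) P.L) (i : Fin (P.m + 2)) :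
    ¬ (P.off i (fun j => P.low (l j)) ∧ P.price i (fun j => P.low (l j)) ≤ P.low (l i)) := by
  intro h
  have := P.low_le (Nat.lt_add_right P.T (mem_box.1 hl i))
  linarith [P.one_lt_price i (fun j => P.low (l j)), h.2]

theorem nowinB (i : Fin (P.m + 2)) {l : Fin (P.m + 1) → ℕ} (hl : l ∈ box (P.m + 1) P.L) {a : ℕ}
    (ha : a < P.thr (∑ j, l j)) (j : Fin (P.m + 2)) :
    ¬ (P.off j (P.q i (P.t a) l) ∧ P.price j (P.q i (P.t a) l) ≤ P.q i (P.t a) l j) := by
  refine Fin.succAboveCases i ?_ (fun j => ?_) j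
  · rw [price_q, q_self]
    exact fun h => not_le.2 (P.t_lt (P.thr_le _) ha) h.2
  · rw [q_succAbove]
    intro h
    have := P.low_le (Nat.lt_add_right P.T (mem_box.1 hl j))
    linarith [P.one_lt_price (i.succAbove j) (P.q i (P.t a) l), h.2]

theorem winG (i : Fin (P.m + 2)) {l : Fin (P.m + 1) → ℕ} (hl : l ∈ box (P.m + 1) (P.L + P.T)) :
    P.off i (P.q i (P.t (P.thr (∑ j, l j))) l) ∧
      P.price i (P.q i (P.t (P.thr (∑ j, l j))) l) ≤ P.q i (P.t (P.thr (∑ j, l j))) l i := by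
  refine ⟨fun j => ?_, by rw [price_q, q_self]⟩
  rw [q_succAbove]
  exact P.low_le (mem_box.1 hl j)

/-- the optimal mechanism for the top bidders -/
noncomputable def Mtop : Mechanism (Fin (P.m + 2)) :=
  multi P.off P.price P.off_update P.price_update P.win_one

theorem Tot_Mtop : P.Tot (fun v => ∑ i, P.Mtop.p v i) = P.RR := by
  rw [P.Tot_eq _ 0]
  · simp
  · exact fun l hl => multi_none (P.nowin0 hl)
  · exact fun i l hl a ha => multi_none (P.nowinB i hl ha)
  · exact fun i l hl => (multi_win (P.winG i hl)).trans (P.price_q _ _ _)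

/-- offers when the reserve bidder takes part -/
def off' (i : Fin (P.m + 3)) (v : Fin (P.m + 3) → ℝ) : Prop :=
  Fin.cases (∀ j, ¬ (P.off j (Fin.tail v) ∧ P.price j (Fin.tail v) ≤ Fin.tail v j))
    (fun j => P.off j (Fin.tail v)) i

/-- prices when the reserve bidder takes part -/
noncomputable def price' (i : Fin (P.m + 3)) (v : Fin (P.m + 3) → ℝ) : ℝ :=
  Fin.cases P.θ (fun j => P.price j (Fin.tail v)) i

/-- a mechanism that also uses the reserve bidder -/
noncomputable def Mall : Mechanism (Fin (P.m + 3)) :=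
  multi P.off' P.price'
    (fun i v b => by
      refine Fin.cases ?_ (fun j => ?_) i
      · simp only [off', Fin.cases_zero, Fin.tail_update_zero]
      · simp only [off', Fin.cases_succ, Fin.tail_update_succ, off_update])
    (fun i v b => by
      refine Fin.cases ?_ (fun j => ?_) i
      · simp only [price', Fin.cases_zero]
      · simp only [price', Fin.cases_succ, Fin.tail_update_succ, price_update])
    (fun v i j => by
      refine Fin.cases ?_ (fun i => ?_) i <;> refine Fin.cases ?_ (fun j => ?_) j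
      · exact fun _ _ => rfl
      · exact fun h1 h2 => (h1.1 j h2).elim
      · exact fun h1 h2 => (h2.1 i h1).elim
      · exact fun h1 h2 => congrArg _ (P.win_one (Fin.tail v) i j h1 h2))

/-- the full valuation vector: bidder `0` is the reserve bidder -/
noncomputable def pt (v : Fin (P.m + 2) → ℝ) : Fin (P.m + 3) → ℝ := Fin.cons P.θ v

theorem Tot_Mall : P.Tot (fun v => ∑ i, P.Mall.p (P.pt v) i) = P.RR + P.θ * P.MM := by
  rw [P.Tot_eq _ P.θ]
  · exact fun l hl => multi_win (i := 0) ⟨P.nowin0 hl, le_rfl⟩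
  · exact fun i l hl a ha => multi_win (i := 0) ⟨P.nowinB i hl ha, le_rfl⟩
  · exact fun i l hl => (multi_win (i := i.succ) (P.winG i hl)).trans (P.price_q _ _ _)

noncomputable def D0 : (Fin (P.m + 3) → ℝ) →₀ ℝ :=
  ∑ l ∈ box (P.m + 2) P.L, Finsupp.single (P.pt fun j => P.low (l j)) (P.u 0 / P.L) +
    ∑ i, (∑ l ∈ box (P.m + 1) P.L, ∑ a ∈ range (P.thr (∑ j, l j)),
      Finsupp.single (P.pt (P.q i (P.t a) l)) (P.u (a + 1) - P.u a) +
    ∑ l ∈ box (P.m + 1) (P.L + P.T),
      Finsupp.single (P.pt (P.q i (P.t (P.thr (∑ j, l j))) l)) (1 - P.u (P.thr (∑ j, l j))))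

theorem Ex_D0 (f : (Fin (P.m + 3) → ℝ) → ℝ) : Ex f P.D0 = P.Tot fun v => f (P.pt v) := by
  simp only [D0, Tot, T0, TB, TG, map_sum, map_add, Ex_single]

noncomputable def DD : (Fin (P.m + 3) → ℝ) →₀ ℝ := (P.Tot fun _ => 1)⁻¹ • P.D0

theorem Ex_DD (f : (Fin (P.m + 3) → ℝ) → ℝ) :
    Ex f P.DD = (P.Tot fun _ => 1)⁻¹ * P.Tot fun v => f (P.pt v) := by
  rw [DD, map_smul, Ex_D0, smul_eq_mul]

theorem D0_nonneg (v : Fin (P.m + 3) → ℝ) : 0 ≤ P.D0 v := by
  classical
  simp only [D0, Finsupp.finsetSum_apply, Finsupp.add_apply, Finsupp.single_apply]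
  refine add_nonneg (sum_nonneg fun l _ => ?_) (sum_nonneg fun i _ => add_nonneg
    (sum_nonneg fun l _ => sum_nonneg fun a ha => ?_) (sum_nonneg fun l _ => ?_))
  · split_ifs
    · exact div_nonneg (P.u_pos (Nat.zero_le _)).le (Nat.cast_nonneg _)
    · exact le_rfl
  · split_ifs
    · have := P.u_lt ((Nat.succ_le_of_lt (mem_range.1 ha)).trans (P.thr_le _)) (Nat.lt_succ_self a)
      linarith
    · exact le_rfl
  · split_ifs
    · linarith [P.u_lt_one (P.thr_le (∑ j, l j))]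
    · exact le_rfl

theorem DD_support {v : Fin (P.m + 3) → ℝ} (hv : v ∈ P.DD.support) :
    ∃ w, (∀ j, P.θ < w j) ∧ v = P.pt w := by
  classical
  by_contra hne
  push Not at hne
  apply Finsupp.mem_support_iff.1 hv
  have : P.D0 v = 0 := by
    simp only [D0, Finsupp.finsetSum_apply, Finsupp.add_apply, Finsupp.single_apply]
    rw [sum_eq_zero, sum_eq_zero, add_zero]
    · intro i _
      rw [sum_eq_zero, sum_eq_zero, add_zero]
      · exact fun l _ => if_neg (hne _ (P.q_gt i (P.t_gt (P.thr_le _)) l)).symm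
      · exact fun l _ => sum_eq_zero fun a ha => if_neg
          (hne _ (P.q_gt i (P.t_gt ((mem_range.1 ha).le.trans (P.thr_le _))) l)).symm
    · exact fun l _ => if_neg (hne _ fun j => P.low_gt _).symm
  simp [DD, this]

theorem MM_pos : 0 < P.MM := by
  have hL : (0 : ℝ) < P.L := by exact_mod_cast P.L_pos
  have h0 : 0 < P.T0 fun _ => 1 := by
    have := P.u_pos (Nat.zero_le _)
    simp only [T0, mul_one, sum_const, card_box, nsmul_eq_mul]
    push_cast
    positivity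
  have h1 : 0 ≤ ∑ i, P.TB i fun _ => 1 :=
    sum_nonneg fun i _ => sum_nonneg fun l _ => sum_nonneg fun a ha => by
      have := P.u_lt ((Nat.succ_le_of_lt (mem_range.1 ha)).trans (P.thr_le _)) (Nat.lt_succ_self a)
      simp only
      linarith
  rw [MM]
  linarith

theorem Z_pos : 0 < P.Tot fun _ => 1 := P.MM_pos.trans_le P.MM_le_Tot

theorem pt_zero (w : Fin (P.m + 2) → ℝ) : P.pt w 0 = P.θ := rfl

theorem pt_gt {w : Fin (P.m + 2) → ℝ} (hw : ∀ j, P.θ < w j) {i : Fin (P.m + 3)} (hi : i ≠ 0) :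
    P.θ < P.pt w i := by
  obtain ⟨i, rfl⟩ := Fin.exists_succ_eq.2 hi
  exact hw i

theorem isDist_DD : IsDist P.DD := by
  have hZ := P.Z_pos
  refine ⟨fun v => ?_, ?_, fun v hv i => ?_⟩
  · simp only [DD, Finsupp.smul_apply, smul_eq_mul]
    exact mul_nonneg (inv_nonneg.2 hZ.le) (P.D0_nonneg _)
  · rw [mass_eq_Ex, Ex_DD, inv_mul_cancel₀ hZ.ne']
  · obtain ⟨w, hw, rfl⟩ := P.DD_support hv
    rcases eq_or_ne i 0 with rfl | hi
    · exact P.h0
    · exact P.h0.trans (P.pt_gt hw hi)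

theorem restrict_pt (w : Fin (P.m + 2) → ℝ) :
    (fun i : {i // i ∈ K0 P.m} => P.pt w i.1) = w ∘ (eK P.m).symm := by
  funext i
  obtain ⟨i, rfl⟩ := (eK P.m).surjective i
  simp only [Function.comp, Equiv.symm_apply_apply]
  rfl

theorem onEvent_DD {v : Fin (P.m + 3) → ℝ} (hv : v 0 = P.θ) : onEvent P.DD (K0 P.m) v = P.DD := by
  classical
  rw [onEvent, Finsupp.filter_eq_self_iff]
  intro w0 hw0
  obtain ⟨w, hw, rfl⟩ := P.DD_support (Finsupp.mem_support_iff.2 hw0)
  constructor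
  · intro j hj
    have : j = 0 := by simpa [mem_K0] using hj
    subst this
    rw [hv, pt_zero]
  · intro i hi j hj
    have : j = 0 := by simpa [mem_K0] using hj
    subst this
    rw [hv]
    exact (P.pt_gt hw (mem_K0.1 hi)).le

theorem rev_condDist {v : Fin (P.m + 3) → ℝ} (hv : v 0 = P.θ) (M : Mechanism {i // i ∈ K0 P.m}) :
    rev (condDist P.DD (K0 P.m) v) M = (P.Tot fun _ => 1)⁻¹ *
      P.Tot fun w => ∑ i, (M.comap (eK P.m)).p w i := by
  rw [condDist, P.onEvent_DD hv, P.isDist_DD.2.1, inv_one, one_smul, rev_eq_Ex,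
    Ex_mapDomain, Ex_DD]
  simp only [Function.comp, Mechanism.comap_sum_p, restrict_pt]

theorem le_OPT : (P.Tot fun _ => 1)⁻¹ * (P.RR + P.θ * P.MM) ≤ OPT P.DD := by
  refine le_trans (le_of_eq ?_) (rev_le_OPT _ P.isDist_DD P.Mall)
  rw [rev_eq_Ex, Ex_DD, Tot_Mall]

theorem look_eq
    (M : (K : Finset (Fin (P.m + 3))) → ({j // j ∉ K} → ℝ) → Mechanism {i // i ∈ K}) :
    (P.DD.sum fun v x => x * ∑ i : {i // i ∈ topK (P.m + 2) v},
      (M (topK (P.m + 2) v) fun j => v j.1).p (fun l => v l.1) i) =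
    (P.Tot fun _ => 1)⁻¹ * P.Tot fun w =>
      ∑ i, ((M (K0 P.m) fun _ => P.θ).comap (eK P.m)).p w i := by
  rw [← Ex_apply, Ex_congr (g := fun v => ∑ i : {i // i ∈ K0 P.m},
      (M (K0 P.m) fun _ => P.θ).p (fun l => v l.1) i), Ex_DD]
  · simp only [Mechanism.comap_sum_p, restrict_pt]
  · intro v hv
    obtain ⟨w, hw, rfl⟩ := P.DD_support hv
    have key : ∀ K : Finset (Fin (P.m + 3)), K = K0 P.m →
        ∑ i : {i // i ∈ K}, (M K fun j => P.pt w j.1).p (fun i => P.pt w i.1) i =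
        ∑ i : {i // i ∈ K0 P.m}, (M (K0 P.m) fun _ => P.θ).p (fun i => P.pt w i.1) i := by
      rintro _ rfl
      have : (fun j : {j // j ∉ K0 P.m} => P.pt w j.1) = fun _ => P.θ := by
        funext j
        have : j.1 = 0 := by simpa [mem_K0] using j.2
        rw [this, pt_zero]
      rw [this]
    exact key _ (topK_eq fun i hi => P.pt_gt hw hi)

theorem look_le {r : ℝ} (hr : IsLookaheadRev (P.m + 2) P.DD r) :
    r ≤ (P.Tot fun _ => 1)⁻¹ * P.RR := by
  obtain ⟨M, -, rfl⟩ := hr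
  rw [look_eq]
  exact mul_le_mul_of_nonneg_left (P.upper_bound _) (inv_nonneg.2 P.Z_pos.le)

theorem look_exists : ∃ r, IsLookaheadRev (P.m + 2) P.DD r := by
  classical
  let M : (K : Finset (Fin (P.m + 3))) → ({j // j ∉ K} → ℝ) → Mechanism {i // i ∈ K} :=
    fun K _ => if h : K = K0 P.m then h ▸ P.Mtop.comap (eK P.m).symm else Mzero _
  have hM : ∀ w, M (K0 P.m) w = P.Mtop.comap (eK P.m).symm := fun w => by
    simp [M]
  refine ⟨_, M, ?_, rfl⟩
  intro v hv
  obtain ⟨w, hw, rfl⟩ := P.DD_support hv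
  have key : ∀ K : Finset (Fin (P.m + 3)), K = K0 P.m → ∀ M' : Mechanism {i // i ∈ K},
      rev (condDist P.DD K (P.pt w)) M' ≤
        rev (condDist P.DD K (P.pt w)) (M K fun j => P.pt w j.1) := by
    rintro _ rfl M'
    rw [hM (fun j => P.pt w j.1), P.rev_condDist (P.pt_zero _), P.rev_condDist (P.pt_zero _)]
    refine mul_le_mul_of_nonneg_left ((P.upper_bound _).trans (le_of_eq ?_))
      (inv_nonneg.2 P.Z_pos.le)
    rw [← P.Tot_Mtop]
    refine congrArg P.Tot (funext fun w => ?_)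
    rw [Mechanism.comap_sum_p, Mechanism.comap_sum_p]
    have : (w ∘ (eK P.m).symm) ∘ (eK P.m).symm.symm = w := by
      funext i
      simp
    rw [this]
  exact key _ (topK_eq fun i hi => P.pt_gt hw hi)

theorem RR_pos : 0 < P.RR := by
  have hL : (0 : ℝ) < P.L := by exact_mod_cast P.L_pos
  unfold RR
  positivity

theorem OPT_pos : 0 < OPT P.DD := by
  have hZ := P.Z_pos
  have hM := P.MM_pos
  have hR := P.RR_pos
  have h0 := P.h0
  exact lt_of_lt_of_le (by positivity) P.le_OPT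

theorem look_ratio_le {r : ℝ} (hr : IsLookaheadRev (P.m + 2) P.DD r) :
    r / OPT P.DD ≤ P.RR / (P.RR + P.θ * P.MM) := by
  have hZ := P.Z_pos
  have hM := P.MM_pos
  have hR := P.RR_pos
  have h0 := P.h0
  have hO := P.le_OPT
  have hpos : 0 < (P.Tot fun _ => 1)⁻¹ * (P.RR + P.θ * P.MM) := by positivity
  calc r / OPT P.DD
      ≤ ((P.Tot fun _ => 1)⁻¹ * P.RR) / OPT P.DD :=
        div_le_div_of_nonneg_right (P.look_le hr) (hpos.trans_le hO).le
    _ ≤ ((P.Tot fun _ => 1)⁻¹ * P.RR) / ((P.Tot fun _ => 1)⁻¹ * (P.RR + P.θ * P.MM)) :=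
        div_le_div_of_nonneg_left (by positivity) hpos hO
    _ = _ := mul_div_mul_left _ _ (inv_ne_zero hZ.ne')

theorem no_tie {v : Fin (P.m + 3) → ℝ} (hv : v ∈ P.DD.support) :
    ∀ i ∈ topK (P.m + 2) v, ∀ j, j ∉ topK (P.m + 2) v → v j < v i := by
  obtain ⟨w, hw, rfl⟩ := P.DD_support hv
  rw [topK_eq fun i hi => P.pt_gt hw hi]
  intro i hi j hj
  have : j = 0 := by simpa [mem_K0] using hj
  subst this
  exact P.pt_gt hw (mem_K0.1 hi)

theorem ratio_le {z y : ℝ} (hz : z = Real.exp (1 - 1 / ((P.m : ℝ) + 2))) (hy : y = 1 / (P.U : ℝ))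
    (hU : 3 ≤ P.U) (hN : P.N = P.U) (hT1 : z * P.U ≤ P.T) (hT2 : (P.T : ℝ) ≤ z * P.U + 1)
    (hθ : P.θ = 1 - y) :
    P.RR / (P.RR + P.θ * P.MM) ≤
      (1 + y) ^ (P.m + 1) / ((1 + y) ^ (P.m + 1) + (1 - y) * ((1 - 2 * y) / (z + y))) := by
  have hU' : (3 : ℝ) ≤ P.U := by exact_mod_cast hU
  have hU0 : (0 : ℝ) < P.U := by linarith
  have hT : (0 : ℝ) < P.T := by exact_mod_cast P.T_pos
  have hL : (0 : ℝ) < P.L := by exact_mod_cast P.L_pos
  have hz0 : 0 < z := hz ▸ Real.exp_pos _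
  have hy0 : 0 < y := by rw [hy]; positivity
  have hy3 : y ≤ 1 / 3 := by rw [hy]; exact one_div_le_one_div_of_le (by norm_num) hU'
  have hk : (0 : ℝ) < P.m + 2 := by positivity
  have hR : P.RR = (P.m + 2) * ((P.L : ℝ) ^ (P.m + 1) * (1 + y) ^ (P.m + 1)) := by
    rw [RR, ← mul_pow]
    congr 2
    rw [hy, L, hN]
    push_cast
    field_simp
  have h1 : 1 / (z + y) ≤ (P.U : ℝ) / P.T := by
    rw [div_le_div_iff₀ (by positivity) hT, hy]
    have : (P.U : ℝ) * (z + 1 / P.U) = z * P.U + 1 := by field_simp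
    linarith
  have h2 : 1 - 1 / ((P.m : ℝ) + 2) - 2 * y ≤ Real.log (((P.T : ℝ) + 1) / (P.U + 2)) := by
    have e1 : z / (1 + 2 * y) ≤ ((P.T : ℝ) + 1) / (P.U + 2) := by
      rw [div_le_div_iff₀ (by positivity) (by positivity), hy]
      have e : ((P.U : ℝ) + 2) = P.U * (1 + 2 * (1 / P.U)) := by field_simp
      rw [e, ← mul_assoc]
      exact mul_le_mul_of_nonneg_right (by linarith) (by positivity)
    have e2 := Real.log_le_log (by positivity) e1
    rw [Real.log_div hz0.ne' (by positivity), hz, Real.log_exp] at e2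
    have e3 := Real.log_le_sub_one_of_pos (show 0 < 1 + 2 * y by positivity)
    linarith
  have h3 : ((P.m : ℝ) + 2) * (1 - 2 * y) ≤
      1 + (P.m + 2) * Real.log (((P.T : ℝ) + 1) / (P.U + 2)) := by
    have := mul_le_mul_of_nonneg_left h2 hk.le
    have e : ((P.m : ℝ) + 2) * (1 - 1 / ((P.m : ℝ) + 2) - 2 * y) =
        (P.m + 2) * (1 - 2 * y) - 1 := by field_simp; ring
    linarith
  have h4 : 0 < 1 - 2 * y := by linarith
  have hM : (P.m + 2) * ((P.L : ℝ) ^ (P.m + 1) * ((1 - 2 * y) / (z + y))) ≤ P.MM := by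
    refine le_trans ?_ P.le_MM
    calc (P.m + 2) * ((P.L : ℝ) ^ (P.m + 1) * ((1 - 2 * y) / (z + y)))
        = (P.L : ℝ) ^ (P.m + 1) * (1 / (z + y)) * ((P.m + 2) * (1 - 2 * y)) := by ring
      _ ≤ _ := by gcongr
  have h5 : 0 < 1 - y := by linarith
  rw [hθ]
  set C : ℝ := (P.m + 2) * (P.L : ℝ) ^ (P.m + 1) with hC
  have hC0 : 0 < C := by positivity
  set B := (1 + y) ^ (P.m + 1) with hB
  have hB0 : 0 < B := by positivity
  set ν := (1 - 2 * y) / (z + y) with hν
  have hν0 : 0 < ν := by positivity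
  have hR' : P.RR = C * B := by rw [hR, hC]; ring
  have hM' : C * ν ≤ P.MM := by rw [hC, mul_assoc]; exact hM
  rw [hR']
  calc C * B / (C * B + (1 - y) * P.MM) ≤ C * B / (C * (B + (1 - y) * ν)) := by
        refine div_le_div_of_nonneg_left (by positivity) (by positivity) ?_
        nlinarith [mul_le_mul_of_nonneg_left hM' h5.le]
    _ = _ := mul_div_mul_left _ _ hC0.ne'

end Par

open Filter Topology in
theorem main (m : ℕ) (ε : ℝ) (hε : 0 < ε) :
    ∃ D : (Fin (m + 3) → ℝ) →₀ ℝ, IsDist D ∧ 0 < OPT D ∧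
      (∀ v ∈ D.support, ∀ i ∈ topK (m + 2) v, ∀ j, j ∉ topK (m + 2) v → v j < v i) ∧
      (∃ r, IsLookaheadRev (m + 2) D r) ∧
      ∀ r, IsLookaheadRev (m + 2) D r → r / OPT D ≤
        Real.exp (1 - 1 / ((m : ℝ) + 2)) / (1 + Real.exp (1 - 1 / ((m : ℝ) + 2))) + ε := by
  set z := Real.exp (1 - 1 / ((m : ℝ) + 2)) with hz
  have hz1 : 1 < z := by
    refine Real.one_lt_exp_iff.2 ?_
    have : (0 : ℝ) ≤ m := Nat.cast_nonneg m
    rw [sub_pos, div_lt_one (by positivity)]
    linarith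
  have hz0 : 0 < z := by linarith
  have h0 : Tendsto (fun N : ℕ => 1 / (N : ℝ)) atTop (𝓝 0) := tendsto_one_div_atTop_nhds_zero_nat
  have hc : ContinuousAt (fun y : ℝ => (1 + y) ^ (m + 1) /
      ((1 + y) ^ (m + 1) + (1 - y) * ((1 - 2 * y) / (z + y)))) 0 := by
    refine ContinuousAt.div (by fun_prop) ?_ ?_
    · refine ContinuousAt.add (by fun_prop) (ContinuousAt.mul (by fun_prop) ?_)
      exact ContinuousAt.div (by fun_prop) (by fun_prop) (by simpa using hz0.ne')
    · simp only [add_zero, one_pow, mul_zero, sub_zero]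
      positivity
  have h1 := hc.tendsto.comp h0
  have e : (1 + (0 : ℝ)) ^ (m + 1) /
      ((1 + 0) ^ (m + 1) + (1 - 0) * ((1 - 2 * 0) / (z + 0))) = z / (1 + z) := by
    simp only [add_zero, one_pow, mul_zero, sub_zero]
    field_simp
    ring
  rw [e] at h1
  have h2 := h1.eventually (gt_mem_nhds (lt_add_of_pos_right _ hε))
  obtain ⟨U, hU1, hU⟩ := (h2.and (eventually_ge_atTop 3)).exists
  have hU' : (3 : ℝ) ≤ U := by exact_mod_cast hU
  have hU0 : (0 : ℝ) < U := by linarith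
  have hθ : 0 < 1 - 1 / (U : ℝ) := by
    rw [sub_pos, div_lt_one hU0]; linarith
  have hθ' : 1 - 1 / (U : ℝ) < 1 := by
    have : 0 < 1 / (U : ℝ) := by positivity
    linarith
  have hT1 := Nat.le_ceil (z * U)
  have hT2 := (Nat.ceil_lt_add_one (show 0 ≤ z * U by positivity)).le
  have hT : U < ⌈z * U⌉₊ := by
    have : (U : ℝ) < ⌈z * U⌉₊ := by nlinarith
    exact_mod_cast this
  let P : Par := ⟨m, U, ⌈z * U⌉₊, U, 1 - 1 / (U : ℝ), by omega, hT, by omega, hθ, hθ'⟩
  exact ⟨P.DD, P.isDist_DD, P.OPT_pos, fun v hv => P.no_tie hv, P.look_exists,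
    fun r hr => ((P.look_ratio_le hr).trans
      (P.ratio_le hz rfl hU rfl hT1 hT2 rfl)).trans hU1.le⟩

end Pool.Agent.Lib.MP_0f9109_lc.Sym
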